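import Pool.Agent.H194Z.AdicDefs

set_option autoImplicit false

namespace Pool.Agent.H194Z.Adic

open Filter
open scoped ENNReal

/-- The sequence `a` is eventually periodic. -/
def EventuallyPeriodic {N : ℕ} (a : ℕ → Fin N) : Prop :=
  ∃ p n₀ : ℕ, 0 < p ∧ ∀ i, n₀ ≤ i → a (i + p) = a i

/-- `λ_{N,n}(a)`: the least complexity of an eventually periodic sequence whose first `n` terms
are those of `a`. -/
noncomputable def prefCx (N n : ℕ) (a : ℕ → Fin N) : ℝ≥0∞ :=
  ⨅ (b : ℕ → Fin N) (_ : EventuallyPeriodic b ∧ ∀ i < n, b i = a i), cx N b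

/-- `T(a)`: the set of accumulation points of the sequence `δ_{N,n}(a) = λ_{N,n}(a) / n`. -/
def accum (N : ℕ) (a : ℕ → Fin N) : Set ℝ :=
  {x | MapClusterPt x atTop fun n : ℕ => (prefCx N n a).toReal / n}

end Pool.Agent.H194Z.Adic
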