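import Pool.Agent.H194Z.AdicBasic
import Pool.Agent.H194Z.AccumDefs

set_option autoImplicit false

namespace Pool.Agent.H194Z.Adic

open Finset Filter
open scoped ENNReal

variable {N : ℕ}

theorem prefCx_le (hN : 2 ≤ N) (n : ℕ) (a : ℕ → Fin N) :
    prefCx N n a ≤ ENNReal.ofReal n := by
  set b : ℕ → Fin N := fun i => if i < n then a i else ⟨0, by omega⟩ with hb
  have hab : ∀ i < n, b i = a i := fun i hi => by simp [hb, hi]
  have hper : EventuallyPeriodic b := ⟨1, n, one_pos, fun i hi => by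
    simp only [hb]; rw [if_neg (by omega), if_neg (by omega)]⟩
  have hq : IsQuot N b (psum N b n) 1 := by
    intro k
    rw [one_mul]
    rcases le_total k n with h | h
    · exact (psum_modEq b h).symm
    · have : psum N b k = psum N b n := by
        induction k, h using Nat.le_induction with
        | base => rfl
        | succ k hk ih =>
          rw [psum_succ, ih]
          simp only [hb]
          rw [if_neg (by omega)]
          simp
      rw [this]
  refine iInf_le_of_le b (iInf_le_of_le ⟨hper, hab⟩ ?_)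
  refine (cx_le b one_pos isCoprime_one_right hq).trans (ENNReal.ofReal_le_ofReal ?_)
  have h1 : max |psum N b n| |1| ≤ (N : ℤ) ^ n := by
    refine max_le ?_ ?_
    · rw [abs_of_nonneg (psum_nonneg _ _)]; exact (psum_lt _ _).le
    · rw [abs_one]; exact one_le_pow₀ (by exact_mod_cast (by omega : 1 ≤ N))
  have h2 : ((max |psum N b n| |1| : ℤ) : ℝ) ≤ (N : ℝ) ^ n := by exact_mod_cast h1
  refine (logb_mono hN (max_pos one_pos) h2).trans (le_of_eq ?_)
  rw [Real.logb_pow, Real.logb_self_eq_one (by exact_mod_cast hN), mul_one]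

theorem prefCx_ne_top (hN : 2 ≤ N) (n : ℕ) (a : ℕ → Fin N) : prefCx N n a ≠ ⊤ :=
  ne_top_of_le_ne_top ENNReal.ofReal_ne_top (prefCx_le hN n a)

theorem le_prefCx (hN : 2 ≤ N) (a : ℕ → Fin N) (n : ℕ) (s : ℝ) (hs : 0 < s)
    (h : ∀ f g : ℤ, 0 < g → IsCoprime g (N : ℤ) → g * psum N a n ≡ f [ZMOD (N : ℤ) ^ n] →
      s ≤ ((max |f| |g| : ℤ) : ℝ)) :
    Real.logb N s ≤ (prefCx N n a).toReal := by
  refine (ENNReal.ofReal_le_iff_le_toReal (prefCx_ne_top hN n a)).1 ?_
  refine le_iInf fun b => le_iInf fun hb => le_cx hN b n s hs ?_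
  rw [psum_congr hb.2]
  exact h

theorem psum_shift {a : ℕ → Fin N} {p n₀ : ℕ} (h : ∀ i, n₀ ≤ i → a (i + p) = a i) (k : ℕ)
    (hk : n₀ ≤ k) : (N : ℤ) ^ p * (psum N a k - psum N a n₀) =
      psum N a (k + p) - psum N a (n₀ + p) := by
  induction k, hk using Nat.le_induction with
  | base => simp
  | succ k hk ih =>
    rw [show k + 1 + p = (k + p) + 1 by ring, psum_succ, psum_succ, h k hk]
    linear_combination ih

theorem accum_nonempty (hN : 2 ≤ N) (a : ℕ → Fin N) : (accum N a).Nonempty := by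
  have hmem : ∀ n : ℕ, (prefCx N n a).toReal / n ∈ Set.Icc (0 : ℝ) 1 := fun n => by
    refine ⟨by positivity, ?_⟩
    have h1 : (prefCx N n a).toReal ≤ n :=
      ENNReal.toReal_le_of_le_ofReal (by positivity) (prefCx_le hN n a)
    exact div_le_one_of_le₀ h1 (by positivity)
  obtain ⟨x, -, hx⟩ := isCompact_Icc.exists_mapClusterPt (f := atTop)
    (u := fun n : ℕ => (prefCx N n a).toReal / n)
    (tendsto_principal.2 (Eventually.of_forall hmem))
  exact ⟨x, hx⟩

theorem idem (N1 N2 : ℕ) (h1 : 2 ≤ N1) (h12 : N1 < N2) (hc : Nat.Coprime N1 N2) :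
    ∃ a : ℕ → Fin (N1 * N2), ¬ EventuallyPeriodic a ∧ ∀ x ∈ accum (N1 * N2) a, 1 / 2 < x := by
  have hN : 2 ≤ N1 * N2 := by nlinarith
  have hco : ∀ k : ℕ, IsCoprime ((N1 : ℤ) ^ k) ((N2 : ℤ) ^ k) := fun k =>
    (Nat.isCoprime_iff_coprime.2 hc).pow
  have hx : ∀ k : ℕ, ∃ x : ℤ, (N1 : ℤ) ^ k ∣ x - 1 ∧ (N2 : ℤ) ^ k ∣ x := fun k => by
    obtain ⟨u, v, huv⟩ := hco k
    exact ⟨v * (N2 : ℤ) ^ k, ⟨-u, by linear_combination huv⟩, Dvd.intro_left _ rfl⟩
  choose x hx1 hx2 using hx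
  obtain ⟨a, ha⟩ := exists_digits (N := N1 * N2) (by omega) x fun k => by
    rw [Int.modEq_iff_dvd]
    push_cast
    rw [mul_pow]
    refine (hco k).mul_dvd ?_ ?_
    · have := (hx1 k).sub ((pow_dvd_pow _ (Nat.le_succ k)).trans (hx1 (k + 1)))
      simpa using this
    · exact (hx2 k).sub ((pow_dvd_pow _ (Nat.le_succ k)).trans (hx2 (k + 1)))
  have e : ∀ k : ℕ, (((N1 * N2 : ℕ) : ℤ)) ^ k = (N1 : ℤ) ^ k * (N2 : ℤ) ^ k := fun k => by
    push_cast; rw [mul_pow]
  have a1 : ∀ k, (N1 : ℤ) ^ k ∣ psum _ a k - 1 := fun k => by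
    have h := (Int.modEq_iff_dvd.1 (ha k))
    rw [e] at h
    have := (hx1 k).sub (dvd_of_mul_right_dvd h)
    simpa using this
  have a2 : ∀ k, (N2 : ℤ) ^ k ∣ psum _ a k := fun k => by
    have h := (Int.modEq_iff_dvd.1 (ha k))
    rw [e] at h
    have := (hx2 k).sub (dvd_of_mul_left_dvd h)
    simpa using this
  refine ⟨a, ?_, ?_⟩
  · rintro ⟨p, n₀, hp, hper⟩
    set c := (((N1 * N2 : ℕ) : ℤ)) ^ p * psum _ a n₀ - psum _ a (n₀ + p) with hc
    have key : ∀ k, n₀ ≤ k →
        c = (((N1 * N2 : ℕ) : ℤ)) ^ p * psum _ a k - psum _ a (k + p) := fun k hk => by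
      have := psum_shift hper k hk
      rw [hc]; linear_combination -this
    have c0 : c = 0 := by
      by_contra hne
      have hd : (N2 : ℤ) ^ (n₀ + c.natAbs) ∣ c := by
        have hk : ∀ k, n₀ ≤ k → (N2 : ℤ) ^ k ∣ c := fun k hk => by
          rw [key k hk]
          exact ((a2 _).mul_left _).sub ((pow_dvd_pow _ (Nat.le_add_right k p)).trans (a2 _))
        exact hk _ (by omega)
      have h3 := Int.le_of_dvd (abs_pos.2 hne) ((dvd_abs _ _).2 hd)
      have h4 : n₀ + c.natAbs < N2 ^ (n₀ + c.natAbs) := Nat.lt_pow_self (by omega)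
      have h5 : ((n₀ + c.natAbs : ℕ) : ℤ) < (N2 : ℤ) ^ (n₀ + c.natAbs) := by exact_mod_cast h4
      push_cast at h5
      omega
    have h6 := key (n₀ + 1) (by omega)
    have h7 : (N1 : ℤ) ∣ psum _ a (n₀ + 1 + p) - 1 :=
      (dvd_pow_self _ (by omega)).trans (a1 _)
    have h8 : (N1 : ℤ) ∣ (((N1 * N2 : ℕ) : ℤ)) ^ p * psum _ a (n₀ + 1) := by
      rw [e]
      exact ((dvd_pow_self _ hp.ne').mul_right _).mul_right _
    have h9 : (N1 : ℤ) ∣ 1 := by
      have := h8.sub h7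
      rwa [show (((N1 * N2 : ℕ) : ℤ)) ^ p * psum _ a (n₀ + 1) - (psum _ a (n₀ + 1 + p) - 1) = 1 by
        linear_combination c0 - h6] at this
    have := Int.le_of_dvd one_pos h9
    omega
  · intro y hy
    have hN2 : (0 : ℝ) < N2 := by exact_mod_cast (by omega : 0 < N2)
    have hlow : ∀ n : ℕ, 1 ≤ n →
        Real.logb (N1 * N2 : ℕ) N2 ≤ (prefCx (N1 * N2) n a).toReal / n := by
      intro n hn
      have h := le_prefCx hN a n ((N2 : ℝ) ^ n) (by positivity) fun f g _ hg hfg => by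
        have hd := Int.modEq_iff_dvd.1 hfg
        rw [e] at hd
        have d2 : (N2 : ℤ) ^ n ∣ f := by
          have := (dvd_of_mul_left_dvd hd).add ((a2 n).mul_left g)
          simpa using this
        have f0 : f ≠ 0 := by
          rintro rfl
          have d1 : (N1 : ℤ) ^ n ∣ g := by
            have := (dvd_of_mul_right_dvd hd).add ((a1 n).mul_left g)
            rw [show 0 - g * psum _ a n + g * (psum _ a n - 1) = -g by ring] at this
            exact (dvd_neg).1 this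
          have d3 : (N1 : ℤ) ∣ g := (dvd_pow_self _ (by omega)).trans d1
          have d4 : (N1 : ℤ) ∣ ((N1 * N2 : ℕ) : ℤ) := by push_cast; exact Dvd.intro _ rfl
          have := Int.le_of_dvd one_pos (hg.isUnit_of_dvd' d3 d4).dvd
          omega
        have h3 := Int.le_of_dvd (abs_pos.2 f0) ((dvd_abs _ _).2 d2)
        have h4 : (N2 : ℤ) ^ n ≤ max |f| |g| := h3.trans (le_max_left _ _)
        exact_mod_cast h4
      rw [Real.logb_pow] at h
      rw [le_div_iff₀ (by exact_mod_cast hn)]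
      linarith
    have hhalf : 1 / 2 < Real.logb (N1 * N2 : ℕ) N2 := by
      have hb : (1 : ℝ) < (N1 * N2 : ℕ) := by exact_mod_cast hN
      have h3 : Real.logb (N1 * N2 : ℕ) (N1 * N2 : ℕ) <
          Real.logb (N1 * N2 : ℕ) ((N2 : ℝ) ^ 2) := by
        refine Real.logb_lt_logb hb (by linarith) ?_
        have : N1 * N2 < N2 ^ 2 := by nlinarith
        exact_mod_cast this
      rw [Real.logb_self_eq_one hb, Real.logb_pow] at h3
      push_cast at h3 ⊢
      linarith
    refine hhalf.trans_le ?_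
    have hcl : IsClosed (Set.Ici (Real.logb (N1 * N2 : ℕ) N2)) := isClosed_Ici
    exact hcl.mem_of_mapClusterPt hy ((eventually_ge_atTop 1).mono hlow)

theorem split (hN : 2 ≤ N) (h : ¬ IsPrimePow N) :
    ∃ N1 N2 : ℕ, 2 ≤ N1 ∧ N1 < N2 ∧ Nat.Coprime N1 N2 ∧ N = N1 * N2 := by
  have hp : (N.minFac).Prime := Nat.minFac_prime (by omega)
  have h1 := Nat.ordProj_mul_ordCompl_eq_self N N.minFac
  have h2 : Nat.Coprime (ordProj[N.minFac] N) (ordCompl[N.minFac] N) :=
    (Nat.coprime_ordCompl hp (by omega)).pow_left _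
  have h3 : 0 < N.factorization N.minFac :=
    hp.factorization_pos_of_dvd (by omega) (Nat.minFac_dvd N)
  have h4 : 2 ≤ ordProj[N.minFac] N := hp.two_le.trans (Nat.le_self_pow h3.ne' _)
  have h5 : ordCompl[N.minFac] N ≠ 1 := by
    intro h5
    rw [h5, mul_one] at h1
    exact h ⟨N.minFac, _, hp.prime, h3, h1⟩
  have h6 : ordCompl[N.minFac] N ≠ 0 := by
    intro h6
    rw [h6, mul_zero] at h1
    omega
  generalize ordProj[N.minFac] N = A at *
  generalize N / A = B at *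
  rcases lt_trichotomy A B with h7 | h7 | h7
  · exact ⟨A, B, h4, h7, h2, h1.symm⟩
  · subst h7
    rw [Nat.coprime_self] at h2
    omega
  · exact ⟨B, A, by omega, h7, h2.symm, by rw [mul_comm]; exact h1.symm⟩

theorem neg_main (hN : 2 ≤ N) (h : ¬ IsPrimePow N) :
    ∃ a : ℕ → Fin N, ¬ EventuallyPeriodic a ∧ ∀ B : ℝ, accum N a ≠ Set.Icc B (1 - B) := by
  obtain ⟨N1, N2, h1, h2, h3, rfl⟩ := split hN h
  obtain ⟨a, ha, hb⟩ := idem N1 N2 h1 h2 h3
  refine ⟨a, ha, fun B hB => ?_⟩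
  obtain ⟨x, hx⟩ := accum_nonempty hN a
  rw [hB] at hx hb
  have := hb B ⟨le_rfl, hx.1.trans hx.2⟩
  have := hx.1.trans hx.2
  linarith

end Pool.Agent.H194Z.Adic
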