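import Pool.Agent.H194Z.AdicLat

set_option autoImplicit false

namespace Pool.Agent.H194Z.Adic

open Finset
open scoped ENNReal

variable {N : ℕ}

def ext (hN : 2 ≤ N) {n : ℕ} (a : Fin n → Fin N) : ℕ → Fin N :=
  fun i => if h : i < n then a ⟨i, h⟩ else ⟨0, by omega⟩

def val (hN : 2 ≤ N) {n : ℕ} (a : Fin n → Fin N) : ℤ := psum N (ext hN a) n

theorem val_inj (hN : 2 ≤ N) {n : ℕ} : Function.Injective (val hN (n := n)) := by
  intro a b h
  have h1 : psum N (ext hN a) n ≡ psum N (ext hN b) n [ZMOD (N : ℤ) ^ n] := by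
    unfold val at h; rw [h]
  funext i
  have := digits_eq h1 i i.2
  simpa [ext] using this

theorem finCx_bounds (hN : 2 ≤ N) (n : ℕ) (a : Fin n → Fin N) :
    finCx N n a ≠ ⊤ ∧
    Real.logb N (sh ((N ^ n : ℕ) : ℤ) (val hN a)) ≤ (finCx N n a).toReal ∧
    (finCx N n a).toReal ≤
      Real.logb N (N + 1) + n - Real.logb N (sh ((N ^ n : ℕ) : ℤ) (val hN a)) := by
  have hq : 0 < N ^ n := pow_pos (by omega) n
  have hs1 := sh_pos ((N ^ n : ℕ) : ℤ) (val hN a)
  have hs2 := sh_le_sqrt (N ^ n) hq (val hN a)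
  obtain ⟨f, g, hg0, hg, hfg, hm⟩ := exists_adm N hN ((N ^ n : ℕ) : ℤ) (by exact_mod_cast hq)
    (val hN a)
  have hlow : ∀ f g : ℤ, 0 < g → g * val hN a ≡ f [ZMOD (N : ℤ) ^ n] →
      ((sh ((N ^ n : ℕ) : ℤ) (val hN a) : ℕ) : ℝ) ≤ ((max |f| |g| : ℤ) : ℝ) := by
    intro f g h0 h
    have := sh_le (q := ((N ^ n : ℕ) : ℤ)) h0 (by push_cast; exact h)
    exact_mod_cast this
  set s := sh ((N ^ n : ℕ) : ℤ) (val hN a) with hs
  have hs3 : s ^ 2 ≤ N ^ n := (Nat.pow_le_pow_left hs2 2).trans (Nat.sqrt_le' _)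
  have hsR : (0 : ℝ) < s := by exact_mod_cast hs1
  obtain ⟨b, f', g', hb, hg'0, hc, -, hq', hle⟩ := exists_ext hN (ext hN a) n f g hg0 hg
    (by push_cast at hfg; exact hfg)
  have hup : finCx N n a ≤ ENNReal.ofReal (Real.logb N (N + 1) + n - Real.logb N s) := by
    refine iInf_le_of_le b (iInf_le_of_le (fun i => by rw [hb i i.2]; simp [ext]) ?_)
    refine (cx_le b hg'0 hc hq').trans (ENNReal.ofReal_le_ofReal ?_)
    have h1 : max |f'| |g'| * s ≤ (N + 1) * (N : ℤ) ^ n := by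
      have h2 : (s : ℤ) ^ 2 ≤ (N : ℤ) ^ n := by exact_mod_cast hs3
      have h3 : max |f'| |g'| * s ≤ max |f| |g| * s :=
        mul_le_mul_of_nonneg_right hle (by positivity)
      have h4 : (N : ℤ) * (s : ℤ) ^ 2 ≤ N * (N : ℤ) ^ n :=
        mul_le_mul_of_nonneg_left h2 (by positivity)
      push_cast at hm
      linarith
    have h5 : ((max |f'| |g'| : ℤ) : ℝ) * s ≤ (N + 1) * (N : ℝ) ^ n := by exact_mod_cast h1
    have h6 := logb_mono hN (mul_pos (max_pos (f := f') hg'0) hsR) h5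
    have hNR : (0 : ℝ) < N := by exact_mod_cast (by omega : 0 < N)
    rw [Real.logb_mul (max_pos hg'0).ne' hsR.ne', Real.logb_mul (by positivity) (by positivity),
      Real.logb_pow, Real.logb_self_eq_one (by exact_mod_cast hN)] at h6
    linarith
  have hne : finCx N n a ≠ ⊤ := ne_top_of_le_ne_top ENNReal.ofReal_ne_top hup
  have hlo : Real.logb N s ≤ (finCx N n a).toReal := by
    refine (ENNReal.ofReal_le_iff_le_toReal hne).1 ?_
    refine le_iInf fun b => le_iInf fun hb => le_cx hN b n s hsR fun f g h0 _ h => hlow f g h0 ?_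
    rwa [psum_congr (b := ext hN a) fun i hi => by rw [hb ⟨i, hi⟩]; simp [ext, hi]] at h
  refine ⟨hne, hlo, ENNReal.toReal_le_of_le_ofReal ?_ hup⟩
  have hNR : (1 : ℝ) < N := by exact_mod_cast hN
  have h7 : Real.logb N s ≤ Real.logb N ((N : ℝ) ^ n) := by
    refine logb_mono hN hsR ?_
    have : s ≤ N ^ n := hs2.trans (Nat.sqrt_le_self _)
    exact_mod_cast this
  rw [Real.logb_pow, Real.logb_self_eq_one hNR] at h7
  have h8 : 0 ≤ Real.logb N (N + 1) := Real.logb_nonneg hNR (by linarith)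
  linarith

theorem sum_log (hN : 2 ≤ N) (n : ℕ) :
    (N : ℝ) ^ n * (n / 2 - Real.logb N 10) ≤
      ∑ a : Fin n → Fin N, Real.logb N (sh ((N ^ n : ℕ) : ℤ) (val hN a)) := by
  have hq : 0 < N ^ n := pow_pos (by omega) n
  have hNR : (1 : ℝ) < N := by exact_mod_cast hN
  have hlog : 0 < Real.log N := Real.log_pos hNR
  set Q := Real.sqrt ((N ^ n : ℕ) : ℝ) with hQ
  have hQ0 : 0 < Q := Real.sqrt_pos.2 (by exact_mod_cast hq)
  have hQQ : Q * Q = (N : ℝ) ^ n := by
    rw [hQ, Real.mul_self_sqrt (by positivity)]; push_cast; rfl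
  have hlQ : Real.log Q = n / 2 * Real.log N := by
    have := congrArg Real.log hQQ
    rw [Real.log_mul hQ0.ne' hQ0.ne', Real.log_pow] at this
    linarith
  have h1 : ∑ a : Fin n → Fin N, (1 : ℝ) / sh ((N ^ n : ℕ) : ℤ) (val hN a) ≤ 10 * Q := by
    refine le_trans ?_ (sum_inv_sh (N ^ n) hq)
    rw [← Finset.sum_image (s := univ) (g := val hN (n := n))
      (f := fun A => (1 : ℝ) / sh ((N ^ n : ℕ) : ℤ) A) (fun a _ b _ h => val_inj hN h)]
    refine Finset.sum_le_sum_of_subset_of_nonneg ?_ fun _ _ _ => by positivity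
    intro A hA
    obtain ⟨a, -, rfl⟩ := Finset.mem_image.1 hA
    rw [Finset.mem_Ico]
    exact ⟨psum_nonneg _ _, by push_cast; exact psum_lt _ _⟩
  have h2 : ∀ a : Fin n → Fin N, (n / 2 - Real.logb N 10) + 1 / Real.log N -
      Q / (10 * Real.log N) * (1 / sh ((N ^ n : ℕ) : ℤ) (val hN a)) ≤
      Real.logb N (sh ((N ^ n : ℕ) : ℤ) (val hN a)) := by
    intro a
    have hs : (0 : ℝ) < sh ((N ^ n : ℕ) : ℤ) (val hN a) := by
      exact_mod_cast sh_pos ((N ^ n : ℕ) : ℤ) (val hN a)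
    generalize ((sh ((N ^ n : ℕ) : ℤ) (val hN a) : ℕ) : ℝ) = s at hs
    have h3 := Real.log_le_sub_one_of_pos (show 0 < Q / (10 * s) by positivity)
    rw [Real.log_div hQ0.ne' (by positivity), Real.log_mul (by norm_num) hs.ne', hlQ] at h3
    unfold Real.logb
    rw [le_div_iff₀ hlog]
    have e : (n / 2 - Real.log 10 / Real.log N + 1 / Real.log N -
        Q / (10 * Real.log N) * (1 / s)) * Real.log N =
        n / 2 * Real.log N - Real.log 10 + 1 - Q / (10 * s) := by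
      field_simp
    rw [e]
    linarith
  refine le_trans ?_ (Finset.sum_le_sum fun a _ => h2 a)
  rw [Finset.sum_sub_distrib, ← Finset.mul_sum, Finset.sum_const, Finset.card_univ,
    Fintype.card_fun, Fintype.card_fin, Fintype.card_fin, nsmul_eq_mul]
  have h4 := mul_le_mul_of_nonneg_left h1 (show 0 ≤ Q / (10 * Real.log N) by positivity)
  have h5 : Q / (10 * Real.log N) * (10 * Q) = (N : ℝ) ^ n * (1 / Real.log N) := by
    rw [← hQQ]; field_simp
  rw [Nat.cast_pow]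
  linarith

theorem avg_main (hN : 2 ≤ N) (n : ℕ) :
    avg N n ≠ ⊤ ∧ n / 2 - Real.logb N 10 ≤ (avg N n).toReal ∧
      (avg N n).toReal ≤ n / 2 + Real.logb N (10 * (N + 1)) := by
  have hb := finCx_bounds hN n
  have hNE : (N : ℝ≥0∞) ^ n ≠ 0 := pow_ne_zero _ (by exact_mod_cast (by omega : N ≠ 0))
  have hsum : ∑ a : Fin n → Fin N, finCx N n a ≠ ⊤ :=
    ENNReal.sum_ne_top.2 fun a _ => (hb a).1
  have hq : (0 : ℝ) < (N : ℝ) ^ n := pow_pos (by exact_mod_cast (by omega : 0 < N)) n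
  have e : (avg N n).toReal = (∑ a : Fin n → Fin N, (finCx N n a).toReal) / (N : ℝ) ^ n := by
    unfold avg
    rw [ENNReal.toReal_div, ENNReal.toReal_sum fun a _ => (hb a).1]
    simp
  have h1 := sum_log hN n
  refine ⟨ENNReal.div_ne_top hsum hNE, ?_, ?_⟩
  · rw [e, le_div_iff₀ hq, mul_comm]
    exact h1.trans (Finset.sum_le_sum fun a _ => (hb a).2.1)
  · rw [e, div_le_iff₀ hq]
    refine (Finset.sum_le_sum fun a _ => (hb a).2.2).trans ?_
    rw [Finset.sum_sub_distrib, Finset.sum_const, Finset.card_univ,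
      Fintype.card_fun, Fintype.card_fin, Fintype.card_fin, nsmul_eq_mul,
      Real.logb_mul (by norm_num) (by positivity)]
    push_cast at h1 ⊢
    linarith

end Pool.Agent.H194Z.Adic
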