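import Pool.Agent.H194Z.AdicDefs

set_option autoImplicit false

namespace Pool.Agent.H194Z.Adic

open Finset
open scoped ENNReal

variable {N : ℕ}

theorem psum_succ (b : ℕ → Fin N) (k : ℕ) :
    psum N b (k + 1) = psum N b k + ((b k : ℕ) : ℤ) * (N : ℤ) ^ k := by
  simp [psum, Finset.sum_range_succ]

theorem psum_zero (b : ℕ → Fin N) : psum N b 0 = 0 := by simp [psum]

theorem psum_nonneg (b : ℕ → Fin N) (k : ℕ) : 0 ≤ psum N b k :=
  Finset.sum_nonneg fun _ _ => by positivity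

theorem psum_lt (b : ℕ → Fin N) (k : ℕ) : psum N b k < (N : ℤ) ^ k := by
  induction k with
  | zero => simp [psum]
  | succ k ih =>
    rw [psum_succ, pow_succ]
    have h1 : ((b k : ℕ) : ℤ) + 1 ≤ N := by exact_mod_cast (b k).2
    have h2 : (0 : ℤ) ≤ (N : ℤ) ^ k := by positivity
    nlinarith

theorem psum_modEq (b : ℕ → Fin N) {k l : ℕ} (h : k ≤ l) :
    psum N b l ≡ psum N b k [ZMOD (N : ℤ) ^ k] := by
  induction l, h using Nat.le_induction with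
  | base => rfl
  | succ l hl ih =>
    rw [psum_succ]
    have : ((b l : ℕ) : ℤ) * (N : ℤ) ^ l ≡ 0 [ZMOD (N : ℤ) ^ k] :=
      Int.modEq_zero_iff_dvd.2 ((pow_dvd_pow _ hl).mul_left _)
    simpa using ih.add this

theorem eq_of_modEq {x y q : ℤ} (hx : 0 ≤ x) (hx' : x < q) (hy : 0 ≤ y) (hy' : y < q)
    (h : x ≡ y [ZMOD q]) : x = y := by
  unfold Int.ModEq at h
  rwa [Int.emod_eq_of_lt hx hx', Int.emod_eq_of_lt hy hy'] at h

theorem psum_congr {a b : ℕ → Fin N} {n : ℕ} (h : ∀ i < n, a i = b i) :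
    psum N a n = psum N b n :=
  Finset.sum_congr rfl fun i hi => by rw [h i (Finset.mem_range.1 hi)]

theorem digits_eq {a b : ℕ → Fin N} {n : ℕ} (h : psum N a n ≡ psum N b n [ZMOD (N : ℤ) ^ n]) :
    ∀ i < n, a i = b i := by
  intro i hi
  have key : ∀ k ≤ n, psum N a k = psum N b k := fun k hk =>
    eq_of_modEq (psum_nonneg _ _) (psum_lt _ _) (psum_nonneg _ _) (psum_lt _ _)
      ((psum_modEq a hk).symm.trans ((h.of_dvd (pow_dvd_pow _ hk)).trans (psum_modEq b hk)))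
  have h1 := key (i + 1) hi
  rw [psum_succ, psum_succ, key i hi.le] at h1
  have hN : (0 : ℤ) < N := by exact_mod_cast (a 0).pos
  have h2 : ((a i : ℕ) : ℤ) = ((b i : ℕ) : ℤ) :=
    mul_right_cancel₀ (pow_pos hN i).ne' (add_left_cancel h1)
  exact Fin.ext (by exact_mod_cast h2)

theorem exists_digits (hN : 0 < N) (x : ℕ → ℤ) (hx : ∀ k, x (k + 1) ≡ x k [ZMOD (N : ℤ) ^ k]) :
    ∃ b : ℕ → Fin N, ∀ k, psum N b k ≡ x k [ZMOD (N : ℤ) ^ k] := by
  have hN' : (0 : ℤ) < N := by exact_mod_cast hN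
  have h0 : ∀ k, 0 ≤ x (k + 1) % (N : ℤ) ^ (k + 1) / (N : ℤ) ^ k := fun k =>
    Int.ediv_nonneg (Int.emod_nonneg _ (pow_pos hN' _).ne') (pow_pos hN' _).le
  have h1 : ∀ k, x (k + 1) % (N : ℤ) ^ (k + 1) / (N : ℤ) ^ k < N := fun k => by
    rw [Int.ediv_lt_iff_lt_mul (pow_pos hN' _), ← pow_succ']
    exact Int.emod_lt_of_pos _ (pow_pos hN' _)
  refine ⟨fun k => ⟨(x (k + 1) % (N : ℤ) ^ (k + 1) / (N : ℤ) ^ k).toNat, by
    have := h0 k; have := h1 k; omega⟩, fun k => ?_⟩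
  set b : ℕ → Fin N := fun k => ⟨(x (k + 1) % (N : ℤ) ^ (k + 1) / (N : ℤ) ^ k).toNat, by
    have := h0 k; have := h1 k; omega⟩ with hb
  have key : ∀ k, psum N b k = x k % (N : ℤ) ^ k := by
    intro k
    induction k with
    | zero => simp [psum]
    | succ k ih =>
      rw [psum_succ, ih]
      have e : ((b k : ℕ) : ℤ) = x (k + 1) % (N : ℤ) ^ (k + 1) / (N : ℤ) ^ k :=
        Int.toNat_of_nonneg (h0 k)
      rw [e, ← hx k, ← Int.emod_emod_of_dvd (x (k + 1)) (pow_dvd_pow (N : ℤ) (Nat.le_succ k))]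
      exact Int.emod_add_ediv_mul _ _
  rw [key]
  exact Int.mod_modEq _ _

theorem modEq_cancel {g x y q : ℤ} (hg : IsCoprime g q) (h : g * x ≡ g * y [ZMOD q]) :
    x ≡ y [ZMOD q] := by
  rw [Int.modEq_iff_dvd] at h ⊢
  rw [← mul_sub] at h
  exact hg.symm.dvd_of_dvd_mul_left h

theorem exists_quot (hN : 0 < N) (f g : ℤ) (hg : IsCoprime g (N : ℤ)) :
    ∃ b : ℕ → Fin N, IsQuot N b f g := by
  have h : ∀ k : ℕ, ∃ x : ℤ, g * x ≡ f [ZMOD (N : ℤ) ^ k] := fun k => by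
    obtain ⟨u, v, huv⟩ := (hg.pow_right : IsCoprime g ((N : ℤ) ^ k))
    refine ⟨u * f, ?_⟩
    rw [Int.modEq_iff_dvd]
    exact ⟨v * f, by linear_combination (-f) * huv⟩
  choose x hx using h
  obtain ⟨b, hb⟩ := exists_digits hN x fun k =>
    modEq_cancel hg.pow_right (((hx (k + 1)).of_dvd (pow_dvd_pow _ (Nat.le_succ k))).trans
      (hx k).symm)
  exact ⟨b, fun k => ((hb k).mul_left g).trans (hx k)⟩

theorem logb_mono (hN : 2 ≤ N) {x y : ℝ} (hx : 0 < x) (h : x ≤ y) :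
    Real.logb N x ≤ Real.logb N y :=
  Real.logb_le_logb_of_le (by exact_mod_cast hN) hx h

/-- An admissible pair gives an extension with small complexity. -/
theorem exists_ext (hN : 2 ≤ N) (a : ℕ → Fin N) (n : ℕ) (f g : ℤ) (hg0 : 0 < g)
    (hg : IsCoprime g (N : ℤ)) (h : g * psum N a n ≡ f [ZMOD (N : ℤ) ^ n]) :
    ∃ (b : ℕ → Fin N) (f' g' : ℤ), (∀ i < n, b i = a i) ∧ 0 < g' ∧ IsCoprime f' g' ∧
      IsCoprime g' (N : ℤ) ∧ IsQuot N b f' g' ∧ max |f'| |g'| ≤ max |f| |g| := by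
  have hd : 0 < Int.gcd f g := Int.gcd_pos_of_ne_zero_right _ hg0.ne'
  obtain ⟨f', g', hc, hf', hg'⟩ := Int.exists_gcd_one hd
  set d : ℤ := (Int.gcd f g : ℤ) with hdd
  have hd' : 0 < d := by rw [hdd]; exact_mod_cast hd
  have hg1 : IsCoprime g' (N : ℤ) := by rw [hg'] at hg; exact hg.of_mul_left_left
  have hd1 : IsCoprime d (N : ℤ) := by rw [hg'] at hg; exact hg.of_mul_left_right
  have hg'0 : 0 < g' := by rw [hg'] at hg0; exact (mul_pos_iff_of_pos_right hd').1 hg0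
  obtain ⟨b, hb⟩ := exists_quot (by omega : 0 < N) f' g' hg1
  have h1 : g' * psum N a n ≡ f' [ZMOD (N : ℤ) ^ n] := by
    refine modEq_cancel (g := d) hd1.pow_right ?_
    have e1 : d * (g' * psum N a n) = g * psum N a n := by rw [hg']; ring
    have e2 : d * f' = f := by rw [hf']; ring
    rw [e1, e2]
    exact h
  refine ⟨b, f', g', digits_eq (modEq_cancel hg1.pow_right ((hb n).trans h1.symm)), hg'0,
    Int.isCoprime_iff_gcd_eq_one.2 hc, hg1, hb, max_le_max ?_ ?_⟩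
  · rw [hf', abs_mul, abs_of_pos hd']
    exact le_mul_of_one_le_right (abs_nonneg _) hd'
  · rw [hg', abs_mul, abs_of_pos hd']
    exact le_mul_of_one_le_right (abs_nonneg _) hd'

theorem cx_le (b : ℕ → Fin N) {f g : ℤ} (h0 : 0 < g) (hc : IsCoprime f g) (h : IsQuot N b f g) :
    cx N b ≤ ENNReal.ofReal (Real.logb N ((max |f| |g| : ℤ) : ℝ)) :=
  iInf_le_of_le f (iInf_le_of_le g (iInf_le_of_le ⟨h0, hc, h⟩ le_rfl))

theorem max_pos {f g : ℤ} (h : 0 < g) : (0 : ℝ) < ((max |f| |g| : ℤ) : ℝ) := by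
  have : 0 < max |f| |g| := lt_max_of_lt_right (abs_pos.2 h.ne')
  exact_mod_cast this

theorem coprime_of_quot {b : ℕ → Fin N} {f g : ℤ} (hc : IsCoprime f g) (h : IsQuot N b f g) :
    IsCoprime g (N : ℤ) := by
  obtain ⟨u, v, huv⟩ := hc
  obtain ⟨c, hc⟩ := Int.modEq_iff_dvd.1 (h 1)
  exact ⟨u * psum N b 1 + v, u * c, by linear_combination huv - u * hc⟩

theorem le_cx (hN : 2 ≤ N) (b : ℕ → Fin N) (n : ℕ) (s : ℝ) (hs : 0 < s)
    (h : ∀ f g : ℤ, 0 < g → IsCoprime g (N : ℤ) → g * psum N b n ≡ f [ZMOD (N : ℤ) ^ n] →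
      s ≤ ((max |f| |g| : ℤ) : ℝ)) :
    ENNReal.ofReal (Real.logb N s) ≤ cx N b :=
  le_iInf fun f => le_iInf fun g => le_iInf fun hh =>
    ENNReal.ofReal_le_ofReal (logb_mono hN hs
      (h f g hh.1 (coprime_of_quot hh.2.1 hh.2.2) (hh.2.2 n)))

end Pool.Agent.H194Z.Adic
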