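import Mathlib

set_option autoImplicit false

namespace Pool.Agent.H194Z.Adic

open Finset
open scoped ENNReal

/-- The partial sum `∑_{i < k} b_i N ^ i` of the `N`-adic integer with digit sequence `b`. -/
def psum (N : ℕ) (b : ℕ → Fin N) (k : ℕ) : ℤ := ∑ i ∈ range k, ((b i : ℕ) : ℤ) * (N : ℤ) ^ i

/-- The `N`-adic integer `α = ∑ b_i N ^ i` satisfies `g α = f` in `ℤ_N`, that is, modulo every
power of `N`. -/
def IsQuot (N : ℕ) (b : ℕ → Fin N) (f g : ℤ) : Prop :=
  ∀ k, g * psum N b k ≡ f [ZMOD (N : ℤ) ^ k]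

/-- The `N`-adic complexity of an infinite sequence: `log_N max (|f|, |g|)` if `α = f / g` with
`g > 0` and `f`, `g` coprime, and `∞` if `α` has no such form. -/
noncomputable def cx (N : ℕ) (b : ℕ → Fin N) : ℝ≥0∞ :=
  ⨅ (f : ℤ) (g : ℤ) (_ : 0 < g ∧ IsCoprime f g ∧ IsQuot N b f g),
    ENNReal.ofReal (Real.logb N ((max |f| |g| : ℤ) : ℝ))

/-- The `N`-adic complexity of a finite sequence: the least complexity of an infinite
extension. -/
noncomputable def finCx (N n : ℕ) (a : Fin n → Fin N) : ℝ≥0∞ :=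
  ⨅ (b : ℕ → Fin N) (_ : ∀ i : Fin n, b i = a i), cx N b

/-- The average complexity of the `N ^ n` finite sequences of length `n`. -/
noncomputable def avg (N n : ℕ) : ℝ≥0∞ := (∑ a : Fin n → Fin N, finCx N n a) / (N : ℝ≥0∞) ^ n

end Pool.Agent.H194Z.Adic
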