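import Pool.Agent.H194Z.AdicBasic

set_option autoImplicit false

namespace Pool.Agent.H194Z.Adic

open Finset

theorem exists_coprime_add (x n : ℤ) (m : ℕ) (hm : m ≠ 0) (hx : IsCoprime x n) :
    ∃ k : ℤ, IsCoprime (x + k * n) (m : ℤ) := by
  classical
  let ps : Finset ℕ := {p ∈ m.primeFactors | ¬ (p : ℤ) ∣ x}
  refine ⟨((ps.prod id : ℕ) : ℤ), ?_⟩
  rw [Int.isCoprime_iff_gcd_eq_one, Int.gcd_eq_natAbs, Int.natAbs_natCast]
  apply Nat.coprime_of_dvd
  intro p pp hp hpn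
  have hp' : (p : ℤ) ∣ x + ((ps.prod id : ℕ) : ℤ) * n := Int.natCast_dvd.2 hp
  have pp' : Prime (p : ℤ) := Nat.prime_iff_prime_int.1 pp
  by_cases hpx : (p : ℤ) ∣ x
  · have h := (dvd_add_right hpx).1 hp'
    rcases pp'.dvd_or_dvd h with h | h
    · have h' : p ∣ ps.prod id := Int.natCast_dvd_natCast.1 h
      have ⟨q, hq, hq'⟩ := (pp.prime.dvd_finsetProd_iff id).mp h'
      rw [Finset.mem_filter, Nat.mem_primeFactors,
        ← (Nat.prime_dvd_prime_iff_eq pp hq.1.1).mp hq'] at hq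
      exact hq.2 hpx
    · exact pp'.not_isUnit (hx.isUnit_of_dvd' hpx h)
  · have pps : p ∈ ps := Finset.mem_filter.mpr ⟨Nat.mem_primeFactors.mpr ⟨pp, hpn, hm⟩, hpx⟩
    have h1 : (p : ℤ) ∣ ((ps.prod id : ℕ) : ℤ) * n :=
      (Int.natCast_dvd_natCast.2 (Finset.dvd_prod_of_mem id pps)).mul_right n
    exact hpx ((dvd_add_left h1).1 hp')

/-- there is a lattice vector of size `k` with positive second coordinate -/
def Short (q A : ℤ) (k : ℕ) : Prop :=
  ∃ f g : ℤ, 0 < g ∧ g * A ≡ f [ZMOD q] ∧ max |f| |g| = k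

theorem short_ex (q A : ℤ) : ∃ k, Short q A k :=
  ⟨(max |A| |1|).toNat, A, 1, one_pos, by simp, by
    rw [Int.toNat_of_nonneg (le_max_of_le_left (abs_nonneg _))]⟩

open Classical in
noncomputable def sh (q A : ℤ) : ℕ := Nat.find (short_ex q A)

theorem sh_spec (q A : ℤ) : Short q A (sh q A) := by
  classical
  exact Nat.find_spec (short_ex q A)

theorem sh_le {q A f g : ℤ} (hg : 0 < g) (h : g * A ≡ f [ZMOD q]) :
    (sh q A : ℤ) ≤ max |f| |g| := by
  classical
  have h0 : 0 ≤ max |f| |g| := le_max_of_le_left (abs_nonneg _)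
  have : sh q A ≤ (max |f| |g|).toNat :=
    Nat.find_min' (short_ex q A) ⟨f, g, hg, h, (Int.toNat_of_nonneg h0).symm⟩
  omega

theorem sh_pos (q A : ℤ) : 1 ≤ sh q A := by
  obtain ⟨f, g, hg, -, h⟩ := sh_spec q A
  have : |g| ≤ max |f| |g| := le_max_right _ _
  rw [abs_of_pos hg] at this h
  omega

theorem sh_le_sqrt (q : ℕ) (hq : 0 < q) (A : ℤ) : sh q A ≤ Nat.sqrt q := by
  have hs : 0 < Nat.sqrt q := Nat.sqrt_pos.2 hq
  obtain ⟨j, k, hk0, hk1, h⟩ := Real.exists_int_int_abs_mul_sub_le ((A : ℝ) / q) hs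
  have hq' : (0 : ℝ) < q := by exact_mod_cast hq
  have h1 : k * A ≡ k * A - j * q [ZMOD q] := by
    rw [Int.modEq_iff_dvd]
    exact ⟨-j, by ring⟩
  have h2 := sh_le hk0 h1
  have h3 : |((k * A - j * q : ℤ) : ℝ)| < Nat.sqrt q + 1 := by
    have e : ((k * A - j * q : ℤ) : ℝ) = (k * (A / q) - j) * q := by
      push_cast; field_simp
    rw [e, abs_mul, abs_of_pos hq']
    have h4 : (q : ℝ) < (Nat.sqrt q + 1) * (Nat.sqrt q + 1) := by
      exact_mod_cast Nat.lt_succ_sqrt q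
    calc _ ≤ 1 / ((Nat.sqrt q : ℝ) + 1) * q := mul_le_mul_of_nonneg_right h hq'.le
      _ < _ := by
        rw [one_div, inv_mul_lt_iff₀ (by positivity)]
        exact h4
  have h5 : |k * A - j * q| < (Nat.sqrt q : ℤ) + 1 := by exact_mod_cast h3
  have h6 : max |k * A - j * q| |k| ≤ (Nat.sqrt q : ℤ) :=
    max_le (by omega) (by rw [abs_of_pos hk0]; exact hk1)
  omega

theorem exists_adm (N : ℕ) (hN : 2 ≤ N) (q : ℤ) (hq : 0 < q) (A : ℤ) :
    ∃ f g : ℤ, 0 < g ∧ IsCoprime g (N : ℤ) ∧ g * A ≡ f [ZMOD q] ∧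
      max |f| |g| * sh q A ≤ q + N * (sh q A : ℤ) ^ 2 := by
  obtain ⟨f1, g1, hg1, h1, hs⟩ := sh_spec q A
  obtain ⟨u1, hu1⟩ := Int.modEq_iff_dvd.1 h1
  have hsp : (1 : ℤ) ≤ sh q A := by exact_mod_cast sh_pos q A
  have hcop : IsCoprime g1 u1 := by
    have hd : 0 < Int.gcd g1 u1 := Int.gcd_pos_of_ne_zero_left _ hg1.ne'
    obtain ⟨g', u', -, hg', hu'⟩ := Int.exists_gcd_one hd
    rw [Int.isCoprime_iff_gcd_eq_one]
    set d : ℤ := (Int.gcd g1 u1 : ℤ) with hdd
    have hd' : 0 < d := by rw [hdd]; exact_mod_cast hd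
    have hg0 : 0 < g' := by rw [hg'] at hg1; exact (mul_pos_iff_of_pos_right hd').1 hg1
    have h2 : g' * A ≡ g' * A + q * u' [ZMOD q] := by
      rw [Int.modEq_iff_dvd]; exact ⟨u', by ring⟩
    have h3 := sh_le hg0 h2
    have h4 : f1 = (g' * A + q * u') * d := by
      rw [hg', hu'] at hu1; linear_combination hu1
    have h5 : max |f1| |g1| = max |g' * A + q * u'| |g'| * d := by
      rw [h4, hg', abs_mul, abs_mul, abs_of_pos hd', max_mul_of_nonneg _ _ hd'.le]
    rw [hs] at h5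
    have h6 : d = 1 := by nlinarith
    rw [hdd] at h6
    exact_mod_cast h6
  obtain ⟨x, y, hxy⟩ := hcop
  obtain ⟨k0, hk0⟩ := exists_coprime_add y g1 N (by omega) ⟨u1, x, by linear_combination hxy⟩
  -- general vector
  have gen : ∀ t : ℤ, IsCoprime (y + k0 * g1 + t * (N * g1)) (N : ℤ) ∧
      (y + k0 * g1 + t * (N * g1)) * A ≡ (y * A - q * x + k0 * f1 + t * (N * f1)) [ZMOD q] ∧
      f1 * (y + k0 * g1 + t * (N * g1)) - (y * A - q * x + k0 * f1 + t * (N * f1)) * g1 = q := by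
    intro t
    refine ⟨?_, ?_, ?_⟩
    · have := hk0.add_mul_left_left (t * g1)
      rwa [show y + k0 * g1 + N * (t * g1) = y + k0 * g1 + t * (N * g1) by ring] at this
    · rw [Int.modEq_iff_dvd]
      exact ⟨-x + k0 * u1 + t * N * u1, by linear_combination (k0 + t * N) * hu1⟩
    · linear_combination y * hu1 + q * hxy
  have hN0 : (0 : ℤ) < N := by exact_mod_cast (by omega : 0 < N)
  have main : ∃ f g : ℤ, IsCoprime g (N : ℤ) ∧ g * A ≡ f [ZMOD q] ∧
      max |f| |g| * sh q A ≤ q + N * (sh q A : ℤ) ^ 2 := by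
    rcases le_total |f1| |g1| with hle | hle
    · rw [max_eq_right hle, abs_of_pos hg1] at hs
      rw [abs_of_pos hg1] at hle
      obtain ⟨a1, a2, a3⟩ := gen (-((y + k0 * g1) / (N * g1)))
      have hD : 0 < (N : ℤ) * g1 := mul_pos hN0 hg1
      have b1 := Int.emod_nonneg (y + k0 * g1) hD.ne'
      have b2 := Int.emod_lt_of_pos (y + k0 * g1) hD
      have b3 : y + k0 * g1 + -((y + k0 * g1) / (N * g1)) * (N * g1) =
          (y + k0 * g1) % (N * g1) := by
        rw [Int.emod_def]; ring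
      refine ⟨_, _, a1, a2, ?_⟩
      rw [b3] at a3 ⊢
      generalize (y + k0 * g1) % (N * g1) = g at *
      generalize y * A - q * x + k0 * f1 + -((y + k0 * g1) / (N * g1)) * (N * f1) = f at *
      rw [← hs, max_mul_of_nonneg _ _ hg1.le, abs_of_nonneg b1]
      refine max_le ?_ (by nlinarith)
      have c1 : |f * g1| ≤ |f1 * g| + |q| := by
        rw [show f * g1 = f1 * g - q by linarith]
        exact abs_sub _ _
      rw [abs_mul, abs_mul, abs_of_pos hg1, abs_of_nonneg b1, abs_of_pos hq] at c1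
      have c2 : |f1| * g ≤ g1 * (N * g1) := mul_le_mul hle b2.le b1 hg1.le
      nlinarith
    · rw [max_eq_left hle] at hs
      rw [abs_of_pos hg1] at hle
      have hf0 : 0 < |f1| := by linarith
      obtain ⟨a1, a2, a3⟩ := gen (-((y * A - q * x + k0 * f1) / (N * f1)))
      have hD : (N : ℤ) * f1 ≠ 0 := mul_ne_zero hN0.ne' (abs_pos.1 hf0)
      have b1 := Int.emod_nonneg (y * A - q * x + k0 * f1) hD
      have b2 := Int.emod_lt_abs (y * A - q * x + k0 * f1) hD
      rw [abs_mul, abs_of_pos hN0] at b2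
      have b3 : y * A - q * x + k0 * f1 + -((y * A - q * x + k0 * f1) / (N * f1)) * (N * f1) =
          (y * A - q * x + k0 * f1) % (N * f1) := by
        rw [Int.emod_def]; ring
      refine ⟨_, _, a1, a2, ?_⟩
      rw [b3] at a3 ⊢
      generalize (y * A - q * x + k0 * f1) % (N * f1) = f at *
      generalize y + k0 * g1 + -((y * A - q * x + k0 * f1) / (N * f1)) * (N * g1) = g at *
      rw [← hs, max_mul_of_nonneg _ _ hf0.le, abs_of_nonneg b1]
      refine max_le (by nlinarith) ?_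
      have c1 : |f1 * g| ≤ |f * g1| + |q| := by
        rw [show f1 * g = f * g1 + q by linarith]
        exact abs_add_le _ _
      rw [abs_mul, abs_mul, abs_of_pos hg1, abs_of_nonneg b1, abs_of_pos hq] at c1
      have c2 : f * g1 ≤ (N * |f1|) * |f1| := mul_le_mul b2.le hle hg1.le (by positivity)
      nlinarith
  obtain ⟨f, g, a1, a2, a3⟩ := main
  have g0 : g ≠ 0 := by
    rintro rfl
    have := Int.le_of_dvd one_pos (isCoprime_zero_left.1 a1).dvd
    omega
  rcases lt_or_gt_of_ne g0 with h | h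
  · refine ⟨-f, -g, by linarith, a1.neg_left, ?_, by rwa [abs_neg, abs_neg]⟩
    rw [neg_mul]
    exact a2.neg
  · exact ⟨f, g, h, a1, a2, a3⟩

theorem count_short (q j : ℕ) (hj : j < q) :
    ((Finset.Ico (0 : ℤ) q).filter fun A => sh q A ≤ j).card ≤ 8 * j ^ 2 := by
  classical
  have hsub : ((Finset.Ico (0 : ℤ) q).filter fun A => sh q A ≤ j) ⊆
      (Finset.Icc (1 : ℤ) j).biUnion fun g => (Finset.Icc (0 : ℤ) g).biUnion fun u =>
        Finset.Icc ((q * u - j) / g) ((q * u + j) / g) := by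
    intro A hA
    simp only [mem_filter, mem_Ico] at hA
    obtain ⟨⟨hA0, hA1⟩, hA2⟩ := hA
    obtain ⟨f, g, hg, h1, hs⟩ := sh_spec q A
    obtain ⟨u, hu⟩ := Int.modEq_iff_dvd.1 h1
    have h2 : |f| ≤ j := by have := le_max_left |f| |g|; omega
    have h3 : g ≤ j := by have := le_max_right |f| |g|; rw [abs_of_pos hg] at this hs; omega
    rw [abs_le] at h2
    have hj' : (j : ℤ) < q := by exact_mod_cast hj
    have hq : (0 : ℤ) < q := by omega
    have hgA : 0 ≤ g * A := by positivity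
    have hgA2 : g * A ≤ g * q := mul_le_mul_of_nonneg_left hA1.le hg.le
    simp only [mem_biUnion, mem_Icc]
    refine ⟨g, ⟨hg, h3⟩, -u, ⟨?_, ?_⟩, ?_, ?_⟩
    · by_contra hc
      have : q * 1 ≤ q * u := mul_le_mul_of_nonneg_left (by omega) hq.le
      linarith
    · by_contra hc
      have : q * (g + 1) ≤ q * (-u) := mul_le_mul_of_nonneg_left (by omega) hq.le
      nlinarith
    · exact Int.ediv_le_of_le_mul hg (by linarith)
    · exact Int.le_ediv_of_mul_le hg (by linarith)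
  refine (Finset.card_le_card hsub).trans (Finset.card_biUnion_le.trans ?_)
  have hg : ∀ g ∈ Finset.Icc (1 : ℤ) j, ((Finset.Icc (0 : ℤ) g).biUnion fun u =>
      Finset.Icc ((q * u - j) / g) ((q * u + j) / g)).card ≤ 8 * j := by
    intro g hg
    rw [mem_Icc] at hg
    have hg0 : 0 < g := hg.1
    have h1 : ∀ u ∈ Finset.Icc (0 : ℤ) g,
        (Finset.Icc ((q * u - j) / g) ((q * u + j) / g)).card ≤ (4 * j / g).toNat := by
      intro u _
      rw [Int.card_Icc]
      refine Int.toNat_le_toNat (Int.le_ediv_of_mul_le hg0 ?_)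
      have a1 := Int.ediv_mul_le (q * u + j) hg0.ne'
      have a2 := Int.lt_ediv_add_one_mul_self (q * u - j) hg0
      nlinarith
    refine Finset.card_biUnion_le.trans ((Finset.sum_le_card_nsmul _ _ _ h1).trans ?_)
    rw [Int.card_Icc, smul_eq_mul]
    have a3 := Int.ediv_mul_le (4 * (j : ℤ)) hg0.ne'
    have a4 : 0 ≤ 4 * (j : ℤ) / g := Int.ediv_nonneg (by positivity) hg0.le
    have a5 : (((g + 1 - 0).toNat * (4 * (j : ℤ) / g).toNat : ℕ) : ℤ) ≤ ((8 * j : ℕ) : ℤ) := by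
      push_cast
      rw [Int.toNat_of_nonneg a4, Int.toNat_of_nonneg (by omega)]
      nlinarith
    exact_mod_cast a5
  refine (Finset.sum_le_card_nsmul _ _ _ hg).trans (le_of_eq ?_)
  simp
  ring

theorem inv_le_tele (s J : ℕ) (hs : 1 ≤ s) (hJ : s ≤ J) :
    (1 : ℝ) / s ≤ 1 / J + ∑ j ∈ range J, if s ≤ j then (1 : ℝ) / (j * (j + 1)) else 0 := by
  induction J, hJ using Nat.le_induction with
  | base =>
    have : 0 ≤ ∑ j ∈ range s, if s ≤ j then (1 : ℝ) / (j * (j + 1)) else 0 :=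
      Finset.sum_nonneg fun j _ => by split_ifs <;> positivity
    linarith
  | succ J hJ ih =>
    rw [Finset.sum_range_succ, if_pos hJ]
    have h0 : (0 : ℝ) < J := by exact_mod_cast (by omega : 0 < J)
    have : (1 : ℝ) / J = 1 / ((J + 1 : ℕ) : ℝ) + 1 / (J * (J + 1)) := by
      push_cast; field_simp
    linarith

theorem sum_inv_sh (q : ℕ) (hq : 0 < q) :
    ∑ A ∈ Finset.Ico (0 : ℤ) q, (1 : ℝ) / sh q A ≤ 10 * Real.sqrt q := by
  classical
  set J := Nat.sqrt q with hJ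
  have hJ1 : 1 ≤ J := Nat.sqrt_pos.2 hq
  have hJq : J ≤ q := Nat.sqrt_le_self q
  have h1 : ∑ A ∈ Finset.Ico (0 : ℤ) q, (1 : ℝ) / sh q A ≤
      ∑ A ∈ Finset.Ico (0 : ℤ) q,
        (1 / J + ∑ j ∈ range J, if sh q A ≤ j then (1 : ℝ) / (j * (j + 1)) else 0) :=
    Finset.sum_le_sum fun A _ => inv_le_tele _ _ (sh_pos _ _) (sh_le_sqrt q hq A)
  rw [Finset.sum_add_distrib, Finset.sum_comm] at h1
  have h2 : ∑ j ∈ range J, ∑ A ∈ Finset.Ico (0 : ℤ) q,
      (if sh q A ≤ j then (1 : ℝ) / (j * (j + 1)) else 0) ≤ ∑ _j ∈ range J, (8 : ℝ) := by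
    refine Finset.sum_le_sum fun j hj => ?_
    rw [← Finset.sum_filter, Finset.sum_const, nsmul_eq_mul]
    have h3 : (((Finset.Ico (0 : ℤ) q).filter fun A => sh q A ≤ j).card : ℝ) ≤ 8 * j ^ 2 := by
      exact_mod_cast count_short q j (by have := mem_range.1 hj; omega)
    rcases Nat.eq_zero_or_pos j with h0 | h0
    · subst h0; simp
    · have h4 : (0 : ℝ) < j := by exact_mod_cast h0
      rw [mul_one_div, div_le_iff₀ (by positivity)]
      nlinarith
  simp only [Finset.sum_const, Int.card_Ico, sub_zero, Int.toNat_natCast, nsmul_eq_mul,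
    card_range] at h1 h2
  have h5 : (J : ℝ) ≤ Real.sqrt q := Real.nat_sqrt_le_real_sqrt
  have h6 : Real.sqrt q ≤ J + 1 := Real.real_sqrt_le_nat_sqrt_succ
  have h7 : (1 : ℝ) ≤ J := by exact_mod_cast hJ1
  have h8 : (q : ℝ) * (1 / J) ≤ 2 * Real.sqrt q := by
    rw [mul_one_div, div_le_iff₀ (by linarith)]
    have h9 : Real.sqrt q * Real.sqrt q = q := Real.mul_self_sqrt (by positivity)
    have h10 : 0 ≤ Real.sqrt q := Real.sqrt_nonneg _
    nlinarith
  linarith

end Pool.Agent.H194Z.Adic
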