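import Mathlib

set_option autoImplicit false

namespace Pool.Agent.H194Z.Hartogs

open scoped LinearAlgebra.Projectivization InnerProductSpace

/-- `ℂ ^ (n + 1) = ℂ ^ n × ℂ`. -/
abbrev E (n : ℕ) : Type := (Fin n → ℂ) × ℂ

/-- The open unit polydisk `Δ ^ (n + 1)`. -/
def polydisk (n : ℕ) : Set (E n) := {p | (∀ i, ‖p.1 i‖ < 1) ∧ ‖p.2‖ < 1}

/-- The Hartogs figure `[Δ ^ n (1 - r) × Δ] ∪ [Δ ^ n × A (r, 1)]`. -/
def hartogs (n : ℕ) (r : ℝ) : Set (E n) :=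
  {p | (∀ i, ‖p.1 i‖ < 1 - r) ∧ ‖p.2‖ < 1} ∪ {p | (∀ i, ‖p.1 i‖ < 1) ∧ r < ‖p.2‖ ∧ ‖p.2‖ < 1}

/-- The complex projective plane: the lines in `ℂ ^ 3`. -/
abbrev P2 : Type := ℙ ℂ (EuclideanSpace ℂ (Fin 3))

/-- The geodesic distance of the Fubini-Study metric on the projective plane:
`d([u], [v]) = arccos (|⟨u, v⟩| / (|u| |v|))`. -/
noncomputable def fsDist (x y : P2) : ℝ :=
  Real.arccos (‖⟪x.rep, y.rep⟫_ℂ‖ / (‖x.rep‖ * ‖y.rep‖))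

/-- `f` is a holomorphic map from the open set `Ω` to the projective plane: near every point of
`Ω` it has a holomorphic lift to `ℂ ^ 3 ∖ {0}`. -/
def IsHolomorphicOn {n : ℕ} (f : E n → P2) (Ω : Set (E n)) : Prop :=
  ∀ p ∈ Ω, ∃ U : Set (E n), IsOpen U ∧ p ∈ U ∧ U ⊆ Ω ∧
    ∃ F : E n → EuclideanSpace ℂ (Fin 3), DifferentiableOn ℂ F U ∧
      ∀ z ∈ U, ∃ h : F z ≠ 0, f z = Projectivization.mk ℂ (F z) h

/-- The family `𝓕` is equicontinuous on `U`. -/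
def IsEquicontinuousOn {n : ℕ} (𝓕 : Set (E n → P2)) (U : Set (E n)) : Prop :=
  ∀ p ∈ U, ∀ ε > 0, ∃ δ > 0, ∀ f ∈ 𝓕, ∀ z ∈ U, dist z p < δ → fsDist (f z) (f p) < ε

end Pool.Agent.H194Z.Hartogs
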