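import Pool.Agent.H194Z.HartogsDefs

set_option autoImplicit false

namespace Pool.Agent.H194Z.Hartogs

open scoped LinearAlgebra.Projectivization InnerProductSpace

abbrev V3 := EuclideanSpace ℂ (Fin 3)

theorem fsDist_mk (u v : V3) (hu : u ≠ 0) (hv : v ≠ 0) :
    fsDist (Projectivization.mk ℂ u hu) (Projectivization.mk ℂ v hv) =
      Real.arccos (‖⟪u, v⟫_ℂ‖ / (‖u‖ * ‖v‖)) := by
  obtain ⟨a, ha⟩ := Projectivization.exists_smul_eq_mk_rep ℂ u hu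
  obtain ⟨b, hb⟩ := Projectivization.exists_smul_eq_mk_rep ℂ v hv
  unfold fsDist
  rw [← ha, ← hb]
  congr 1
  simp only [Units.smul_def, inner_smul_left, inner_smul_right, norm_mul, norm_smul,
    RCLike.norm_conj]
  have h1 : ‖(a : ℂ)‖ ≠ 0 := norm_ne_zero_iff.2 a.ne_zero
  have h2 : ‖(b : ℂ)‖ ≠ 0 := norm_ne_zero_iff.2 b.ne_zero
  have h3 : ‖u‖ ≠ 0 := norm_ne_zero_iff.2 hu
  have h4 : ‖v‖ ≠ 0 := norm_ne_zero_iff.2 hv
  field_simp

theorem cos_ge (u v : V3) (ρ η : ℝ) (hρ : 0 < ρ) (hv : ρ ≤ ‖v‖) (huv : ‖u - v‖ ≤ η)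
    (hη : η ≤ ρ / 2) : 1 - 2 * η / ρ ≤ ‖⟪u, v⟫_ℂ‖ / (‖u‖ * ‖v‖) := by
  have hη0 : 0 ≤ η := (norm_nonneg _).trans huv
  have h1 : ‖u‖ ≤ ‖v‖ + η := by
    calc ‖u‖ = ‖v + (u - v)‖ := by congr 1; abel
      _ ≤ ‖v‖ + ‖u - v‖ := norm_add_le _ _
      _ ≤ _ := by linarith
  have h1' : ‖v‖ - η ≤ ‖u‖ := by
    have : ‖v‖ ≤ ‖u‖ + ‖u - v‖ := by
      calc ‖v‖ = ‖u - (u - v)‖ := by congr 1; abel
        _ ≤ _ := norm_sub_le _ _
    linarith
  have h2 : ‖v‖ * (‖v‖ - η) ≤ ‖⟪u, v⟫_ℂ‖ := by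
    have e : ⟪v, v⟫_ℂ = ⟪u, v⟫_ℂ - ⟪u - v, v⟫_ℂ := by rw [inner_sub_left]; ring
    have h3 : ‖⟪v, v⟫_ℂ‖ = ‖v‖ ^ 2 := by
      rw [inner_self_eq_norm_sq_to_K]; simp
    have h4 : ‖⟪u - v, v⟫_ℂ‖ ≤ η * ‖v‖ :=
      (norm_inner_le_norm _ _).trans (mul_le_mul_of_nonneg_right huv (norm_nonneg _))
    have h5 := norm_sub_le ⟪u, v⟫_ℂ ⟪u - v, v⟫_ℂ
    rw [← e, h3] at h5
    nlinarith
  have hvpos : 0 < ‖v‖ := hρ.trans_le hv
  have hupos : 0 < ‖u‖ := by linarith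
  rw [le_div_iff₀ (by positivity)]
  refine le_trans ?_ h2
  have h6 : η / ‖v‖ ≤ η / ρ := div_le_div_of_nonneg_left hη0 hρ hv
  have h7 : η / ‖v‖ * ‖v‖ = η := div_mul_cancel₀ _ hvpos.ne'
  have h8 : η / ρ ≤ 1 / 2 := by rw [div_le_iff₀ hρ]; linarith
  have h9 : (1 - 2 * η / ρ) * ‖u‖ ≤ ‖v‖ - η := by
    have h10 : 0 ≤ 1 - 2 * η / ρ := by rw [mul_div_assoc]; linarith
    calc (1 - 2 * η / ρ) * ‖u‖ ≤ (1 - 2 * η / ρ) * (‖v‖ + η) :=
          mul_le_mul_of_nonneg_left h1 h10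
      _ ≤ (1 - 2 * (η / ‖v‖)) * (‖v‖ + η) := by
          refine mul_le_mul_of_nonneg_right ?_ (by positivity)
          rw [mul_div_assoc]; linarith
      _ ≤ ‖v‖ - η := by
          have : 0 ≤ η / ‖v‖ * η := by positivity
          nlinarith
  calc (1 - 2 * η / ρ) * (‖u‖ * ‖v‖) = ‖v‖ * ((1 - 2 * η / ρ) * ‖u‖) := by ring
    _ ≤ _ := mul_le_mul_of_nonneg_left h9 hvpos.le

variable {n : ℕ}

noncomputable def lift (i : Fin n) (a : ℂ) (k : ℕ) (p : E n) : V3 :=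
  !₂[p.1 i - a, p.2, ((1 / ((k : ℝ) + 1) : ℝ) : ℂ)]

theorem lift_ne (i : Fin n) (a : ℂ) (k : ℕ) (p : E n) : lift i a k p ≠ 0 := by
  intro h
  have h2 := congrArg (fun v : V3 => v 2) h
  simp only [lift] at h2
  have h3 : ((1 / ((k : ℝ) + 1) : ℝ) : ℂ) = 0 := h2
  have h4 : (1 / ((k : ℝ) + 1) : ℝ) = 0 := by exact_mod_cast h3
  have : 0 < (1 / ((k : ℝ) + 1) : ℝ) := by positivity
  linarith

noncomputable def fam (i : Fin n) (a : ℂ) (k : ℕ) (p : E n) : P2 :=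
  Projectivization.mk ℂ (lift i a k p) (lift_ne i a k p)

theorem lift_diff (i : Fin n) (a : ℂ) (k : ℕ) : Differentiable ℂ (lift i a k) := by
  rw [differentiable_euclidean]
  intro j
  fin_cases j
  · show Differentiable ℂ fun p : E n => p.1 i - a
    fun_prop
  · show Differentiable ℂ fun p : E n => p.2
    fun_prop
  · show Differentiable ℂ fun _ : E n => ((1 / ((k : ℝ) + 1) : ℝ) : ℂ)
    fun_prop

theorem isOpen_polydisk : IsOpen (polydisk n) := by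
  have : polydisk n = (⋂ i, {p : E n | ‖p.1 i‖ < 1}) ∩ {p : E n | ‖p.2‖ < 1} := by
    ext p; simp [polydisk]
  rw [this]
  refine (isOpen_iInter_of_finite fun i => ?_).inter ?_
  · exact isOpen_lt (by fun_prop) continuous_const
  · exact isOpen_lt (by fun_prop) continuous_const

theorem fam_holo (i : Fin n) (a : ℂ) (k : ℕ) : IsHolomorphicOn (fam i a k) (polydisk n) :=
  fun _ hp => ⟨polydisk n, isOpen_polydisk, hp, subset_rfl, lift i a k,
    (lift_diff i a k).differentiableOn, fun z _ => ⟨lift_ne i a k z, rfl⟩⟩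

theorem norm_lift_sq (i : Fin n) (a : ℂ) (k : ℕ) (p : E n) :
    ‖lift i a k p‖ ^ 2 = ‖p.1 i - a‖ ^ 2 + ‖p.2‖ ^ 2 + (1 / ((k : ℝ) + 1)) ^ 2 := by
  rw [EuclideanSpace.norm_sq_eq, Fin.sum_univ_three]
  have : ‖((1 / ((k : ℝ) + 1) : ℝ) : ℂ)‖ = 1 / ((k : ℝ) + 1) := by
    rw [Complex.norm_real, Real.norm_eq_abs, abs_of_pos (by positivity)]
  rw [← this]
  rfl

theorem norm_lift_sub (i : Fin n) (a : ℂ) (k : ℕ) (z p : E n) :
    ‖lift i a k z - lift i a k p‖ ≤ 2 * dist z p := by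
  have h1 : ‖z.1 i - p.1 i‖ ≤ dist z p := by
    rw [← dist_eq_norm]
    exact (dist_le_pi_dist z.1 p.1 i).trans (le_max_left _ _)
  have h2 : ‖z.2 - p.2‖ ≤ dist z p := by
    rw [← dist_eq_norm]
    exact le_max_right _ _
  have h3 : ‖lift i a k z - lift i a k p‖ ^ 2 = ‖z.1 i - p.1 i‖ ^ 2 + ‖z.2 - p.2‖ ^ 2 := by
    rw [EuclideanSpace.norm_sq_eq, Fin.sum_univ_three]
    simp [lift]
  have h0 : 0 ≤ dist z p := dist_nonneg
  have h4 := norm_nonneg (z.1 i - p.1 i)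
  have h5 := norm_nonneg (z.2 - p.2)
  refine abs_le_of_sq_le_sq' ?_ (by positivity) |>.2
  rw [h3]
  nlinarith

theorem equi (i : Fin n) (a : ℂ) (U : Set (E n)) (hU : ∀ p ∈ U, p.1 i ≠ a ∨ p.2 ≠ 0) :
    IsEquicontinuousOn (Set.range (fam i a)) U := by
  intro p hp ε hε
  set ρ := max ‖p.1 i - a‖ ‖p.2‖ with hρdef
  have hρ : 0 < ρ := by
    rcases hU p hp with h | h
    · exact lt_max_of_lt_left (norm_pos_iff.2 (sub_ne_zero.2 h))
    · exact lt_max_of_lt_right (norm_pos_iff.2 h)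
  have hc : ContinuousAt Real.arccos 1 := Real.continuous_arccos.continuousAt
  obtain ⟨δ, hδ, hδ2⟩ := Metric.continuousAt_iff.1 hc ε hε
  refine ⟨min (ρ / 4) (δ * ρ / 8), by positivity, ?_⟩
  rintro _ ⟨k, rfl⟩ z _ hz
  have hz1 : dist z p < ρ / 4 := hz.trans_le (min_le_left _ _)
  have hz2 : dist z p < δ * ρ / 8 := hz.trans_le (min_le_right _ _)
  unfold fam
  rw [fsDist_mk]
  have hv : ρ ≤ ‖lift i a k p‖ := by
    have h := norm_lift_sq i a k p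
    have h0 := norm_nonneg (p.1 i - a)
    have h1 := norm_nonneg p.2
    have h2 := sq_nonneg (1 / ((k : ℝ) + 1))
    refine max_le ?_ ?_
    · exact abs_le_of_sq_le_sq' (by nlinarith) (norm_nonneg _) |>.2
    · exact abs_le_of_sq_le_sq' (by nlinarith) (norm_nonneg _) |>.2
  have h1 := cos_ge _ _ ρ _ hρ hv (norm_lift_sub i a k z p) (by linarith)
  have h2 : 2 * (2 * dist z p) / ρ ≤ δ / 2 := by
    rw [div_le_iff₀ hρ]; linarith
  have h3 := Real.arccos_le_arccos (show 1 - δ / 2 ≤ _ from le_trans (by linarith) h1)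
  have h4 := hδ2 (x := 1 - δ / 2) (by
    rw [Real.dist_eq, abs_of_neg (by linarith)]; linarith)
  rw [Real.arccos_one, Real.dist_eq, sub_zero] at h4
  exact h3.trans_lt ((le_abs_self _).trans_lt h4)

theorem not_equi (i : Fin n) (a : ℂ) (ha : ‖a‖ < 1) :
    ¬ IsEquicontinuousOn (Set.range (fam i a)) (polydisk n) := by
  intro h
  have hpos : 0 < Real.arccos (1 / 2) := Real.arccos_pos.2 (by norm_num)
  obtain ⟨δ, hδ, h2⟩ := h (fun _ => a, 0) ⟨fun _ => ha, by simp⟩ _ hpos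
  set η : ℝ := min (δ / 2) (1 / 2) with hη
  have hη0 : 0 < η := by positivity
  have hη1 : η ≤ δ / 2 := min_le_left _ _
  have hη2 : η ≤ 1 / 2 := min_le_right _ _
  obtain ⟨k, hk⟩ := exists_nat_one_div_lt (show 0 < η / 2 by positivity)
  have h3 := h2 _ ⟨k, rfl⟩ (fun _ => a, (η : ℂ)) ⟨fun _ => ha, by
    show ‖(η : ℂ)‖ < 1
    rw [Complex.norm_real, Real.norm_eq_abs, abs_of_pos hη0]; linarith⟩ (by
    rw [Prod.dist_eq]
    simp only [dist_self, dist_zero_right, Complex.norm_real, Real.norm_eq_abs, abs_of_pos hη0]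
    exact max_lt hδ (by linarith))
  unfold fam at h3
  rw [fsDist_mk] at h3
  refine absurd h3 (not_lt.2 (Real.arccos_le_arccos ?_))
  set c : ℝ := 1 / ((k : ℝ) + 1) with hc
  have hc0 : 0 < c := by positivity
  have e1 : ‖⟪lift i a k (fun _ => a, (η : ℂ)), lift i a k (fun _ => a, 0)⟫_ℂ‖ = c ^ 2 := by
    have : ⟪lift i a k (fun _ => a, (η : ℂ)), lift i a k (fun _ => a, 0)⟫_ℂ = ((c ^ 2 : ℝ) : ℂ) := by
      rw [PiLp.inner_apply, Fin.sum_univ_three]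
      simp only [lift, ← hc]
      simp [pow_two, abs_of_pos hc0]
    rw [this, Complex.norm_real, Real.norm_eq_abs, abs_of_pos (by positivity)]
  have e2 : ‖lift i a k (fun _ => a, 0)‖ = c := by
    have := norm_lift_sq i a k (fun _ => a, 0)
    simp only [sub_self, norm_zero] at this
    rw [← hc] at this
    have h5 := norm_nonneg (lift i a k (fun _ => a, 0))
    nlinarith
  have e3 : η ≤ ‖lift i a k (fun _ => a, (η : ℂ))‖ := by
    have := norm_lift_sq i a k (fun _ => a, (η : ℂ))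
    simp only [sub_self, norm_zero, Complex.norm_real, Real.norm_eq_abs, abs_of_pos hη0] at this
    exact abs_le_of_sq_le_sq' (by nlinarith [sq_nonneg (1 / ((k : ℝ) + 1))]) (norm_nonneg _) |>.2
  rw [e1, e2, div_le_iff₀ (mul_pos (hη0.trans_le e3) hc0)]
  nlinarith

theorem main (n : ℕ) (hn : 1 ≤ n) (r : ℝ) (hr0 : 0 < r) (hr1 : r < 1) :
    ∃ 𝓕 : Set (E n → P2), (∀ f ∈ 𝓕, IsHolomorphicOn f (polydisk n)) ∧
      IsEquicontinuousOn 𝓕 (hartogs n r) ∧ ¬ IsEquicontinuousOn 𝓕 (polydisk n) := by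
  have hna : ‖((1 - r / 2 : ℝ) : ℂ)‖ = 1 - r / 2 := by
    rw [Complex.norm_real, Real.norm_eq_abs, abs_of_pos (by linarith)]
  refine ⟨Set.range (fam ⟨0, hn⟩ ((1 - r / 2 : ℝ) : ℂ)), ?_, equi _ _ _ ?_, not_equi _ _ ?_⟩
  · rintro _ ⟨k, rfl⟩
    exact fam_holo _ _ _
  · rintro p (hp | hp)
    · left
      intro h
      have := hp.1 ⟨0, hn⟩
      rw [h, hna] at this
      linarith
    · right
      intro h
      have := hp.2.1
      rw [h, norm_zero] at this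
      linarith
  · rw [hna]; linarith

end Pool.Agent.H194Z.Hartogs
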