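import Mathlib

set_option autoImplicit false

namespace Pool.Agent.H194Z.Ising

open Finset

variable {V : Type} [Fintype V] [DecidableEq V]

/-- The value of a spin: `true` is `+1`, `false` is `-1`.  Configurations are maps `V → Bool`. -/
def spin (b : Bool) : ℝ := if b then 1 else -1

open Classical in
/-- The Boltzmann weight `exp (β ∑_{ij ∈ E} σ_i σ_j)`. -/
noncomputable def weight (G : SimpleGraph V) (β : ℝ) (σ : V → Bool) : ℝ :=
  Real.exp (β * ∑ e ∈ G.edgeFinset, (e.map fun i => spin (σ i)).mul)

/-- The Ising measure `π`: the normalised Boltzmann weight. -/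
noncomputable def gibbs (G : SimpleGraph V) (β : ℝ) (σ : V → Bool) : ℝ :=
  weight G β σ / ∑ τ, weight G β τ

/-- The heat-bath update at `v`: from `σ`, the new configuration `τ` is drawn from `π`
conditioned on agreeing with `σ` off `v`. -/
noncomputable def heatBath (G : SimpleGraph V) (β : ℝ) (v : V) :
    Matrix (V → Bool) (V → Bool) ℝ := fun σ τ =>
  if ∀ u, u ≠ v → τ u = σ u then
    gibbs G β τ / ∑ ρ ∈ univ.filter (fun ρ : V → Bool => ∀ u, u ≠ v → ρ u = σ u), gibbs G β ρ
  else 0

/-- The generator of the Glauber dynamics: every vertex is updated at rate one. -/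
noncomputable def generator (G : SimpleGraph V) (β : ℝ) : Matrix (V → Bool) (V → Bool) ℝ :=
  ∑ v, (heatBath G β v - 1)

/-- The time-`t` transition kernel `P^t = exp (t Q)`; `glauber G β t x` is the law `P^t(x, ·)`. -/
noncomputable def glauber (G : SimpleGraph V) (β t : ℝ) : Matrix (V → Bool) (V → Bool) ℝ :=
  NormedSpace.exp (t • generator G β)

/-- Total variation distance `max_{A ⊆ Ω} |μ(A) - ν(A)|` on a finite set `Ω`. -/
noncomputable def tv {Ω : Type} [Fintype Ω] (μ ν : Ω → ℝ) : ℝ :=
  (univ : Finset (Finset Ω)).sup' ⟨∅, mem_univ _⟩ fun A => |∑ z ∈ A, μ z - ∑ z ∈ A, ν z|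

end Pool.Agent.H194Z.Ising
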