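import Pool.Agent.H194Z.IsingGen

set_option autoImplicit false

namespace Pool.Agent.H194Z.Ising

open Finset Matrix

def edges : List (Fin 9 × Fin 9) :=
  [(0,1),(0,2),(1,2),(3,4),(1,3),(1,4),(2,5),(2,6),(5,6),(5,7),(5,8),(6,7),(6,8),(7,8)]

def G9 : SimpleGraph (Fin 9) := SimpleGraph.fromRel fun a b => (a, b) ∈ edges

instance : DecidableRel G9.Adj := fun a b =>
  decidable_of_iff (a ≠ b ∧ ((a, b) ∈ edges ∨ (b, a) ∈ edges)) (by simp [G9, SimpleGraph.fromRel_adj])

def HH (z : Fin 9 → Bool) : ℤ := (edges.map fun e => if z e.1 = z e.2 then (1 : ℤ) else -1).sum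

theorem edgeFinset_eq : G9.edgeFinset = (edges.map fun e => s(e.1, e.2)).toFinset := by
  decide +kernel

theorem edges_nodup : (edges.map fun e => s(e.1, e.2)).Nodup := by decide +kernel

theorem spin_mul (a b : Bool) : spin a * spin b = ((if a = b then (1 : ℤ) else -1 : ℤ) : ℝ) := by
  cases a <;> cases b <;> simp [spin]

theorem weight_eq (β : ℝ) (z : Fin 9 → Bool) : weight G9 β z = Real.exp (β * HH z) := by
  unfold weight
  congr 2
  rw [show (∑ e ∈ _, _) = ∑ e ∈ G9.edgeFinset, (e.map fun i => spin (z i)).mul from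
    Finset.sum_congr (by ext e; simp) (fun _ _ => rfl)]
  rw [edgeFinset_eq, List.sum_toFinset _ edges_nodup, List.map_map]
  unfold HH
  rw [Int.cast_list_sum, List.map_map]
  congr 1
  refine List.map_congr_left fun e _ => ?_
  simp only [Function.comp, Sym2.map_mk, Sym2.mul_mk, spin_mul]

def cost (v : Fin 9) (z : Fin 9 → Bool) : ℕ := (HH z - HH (flp v z)).toNat

theorem fp_eq (β : ℝ) (v : Fin 9) (z : Fin 9 → Bool) :
    fp G9 β v z = 1 / (1 + Real.exp (β * ((HH z - HH (flp v z) : ℤ) : ℝ))) := by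
  unfold fp
  rw [weight_eq, weight_eq]
  have h : Real.exp (β * HH z) =
      Real.exp (β * HH (flp v z)) * Real.exp (β * ((HH z - HH (flp v z) : ℤ) : ℝ)) := by
    rw [← Real.exp_add]; congr 1; push_cast; ring
  rw [h]
  have := Real.exp_pos (β * HH (flp v z))
  have := Real.exp_pos (β * ((HH z - HH (flp v z) : ℤ) : ℝ))
  field_simp
  ring

noncomputable def β0 : ℝ := Real.log 100

theorem β0_pos : 0 < β0 := Real.log_pos (by norm_num)

theorem exp_β0 (n : ℕ) : Real.exp (β0 * n) = 100 ^ n := by
  rw [mul_comm, Real.exp_nat_mul, β0, Real.exp_log (by norm_num)]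

theorem fp_bounds (v : Fin 9) (z : Fin 9 → Bool) :
    fp G9 β0 v z ≤ (1 / 100) ^ cost v z ∧ (1 / 100) ^ cost v z / 2 ≤ fp G9 β0 v z := by
  rw [fp_eq]
  unfold cost
  generalize HH z - HH (flp v z) = d
  rcases le_total 0 d with hd | hd
  · obtain ⟨n, rfl⟩ := Int.eq_ofNat_of_zero_le hd
    rw [Int.toNat_natCast, Int.cast_natCast, exp_β0, _root_.one_div_pow]
    have h1 : (1 : ℝ) ≤ 100 ^ n := one_le_pow₀ (by norm_num)
    constructor
    · exact one_div_le_one_div_of_le (by linarith) (by linarith)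
    · rw [div_div]
      exact one_div_le_one_div_of_le (by linarith) (by linarith)
  · rw [Int.toNat_eq_zero.2 hd, pow_zero]
    have h0 := Real.exp_pos (β0 * (d : ℝ))
    have h1 : Real.exp (β0 * (d : ℝ)) ≤ 1 := by
      rw [Real.exp_le_one_iff]
      exact mul_nonpos_of_nonneg_of_nonpos β0_pos.le (by exact_mod_cast hd)
    constructor
    · rw [div_le_one (by linarith)]; linarith
    · exact one_div_le_one_div_of_le (by linarith) (by linarith)

/-- distance from `x` -/
def dst (x z : Fin 9 → Bool) : ℕ := (univ.filter fun v => z v ≠ x v).card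

theorem dst_flp_eq (x z : Fin 9 → Bool) (v : Fin 9) (h : z v = x v) :
    dst x (flp v z) = dst x z + 1 := by
  unfold dst
  have : (univ.filter fun u => flp v z u ≠ x u) = insert v (univ.filter fun u => z u ≠ x u) := by
    ext u
    by_cases hu : u = v
    · subst hu; simp [flp, h]
    · simp [flp, hu]
  rw [this, Finset.card_insert_of_notMem (by simp [h])]

theorem dst_flp_ne (x z : Fin 9 → Bool) (v : Fin 9) (h : z v ≠ x v) :
    dst x (flp v z) ≤ dst x z := by
  unfold dst
  refine Finset.card_le_card fun u hu => ?_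
  by_cases huv : u = v
  · subst huv; simpa using h
  · simpa [flp, Function.update_of_ne huv] using hu

theorem dst_flp_le (x z : Fin 9 → Bool) (v : Fin 9) : dst x (flp v z) ≤ dst x z + 1 := by
  by_cases h : z v = x v
  · exact (dst_flp_eq x z v h).le
  · exact (dst_flp_ne x z v h).trans (Nat.le_succ _)

/-- indicator of the configurations far from `x` -/
noncomputable def far (x : Fin 9 → Bool) (z : Fin 9 → Bool) : ℝ := if 5 ≤ dst x z then 1 else 0

theorem far_nonneg (x z : Fin 9 → Bool) : 0 ≤ far x z := by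
  unfold far; split_ifs <;> norm_num

theorem far_le (x z : Fin 9 → Bool) : far x z ≤ 1 := by
  unfold far; split_ifs <;> norm_num

theorem FF_far_zero (x : Fin 9 → Bool) (j : ℕ) :
    ∀ z, dst x z + j < 5 → FF G9 β0 j (far x) z = 0 := by
  induction j with
  | zero =>
    intro z hz
    rw [FF_zero, far, if_neg (by omega)]
  | succ j ih =>
    intro z hz
    rw [FF_succ]
    refine Finset.sum_eq_zero fun v _ => ?_
    have := dst_flp_le x z v
    rw [ih z (by omega), ih (flp v z) (by omega)]
    ring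

def ok (x : Fin 9 → Bool) : ℕ → (Fin 9 → Bool) → ℕ → Bool
  | _, _, 0 => true
  | 0, _, _ + 1 => false
  | j + 1, z, b + 1 => (List.finRange 9).all fun v =>
      (z v != x v) || ok x j (flp v z) (b + 1 - cost v z)

theorem FF_far_le (x : Fin 9 → Bool) (j : ℕ) :
    ∀ z b, ok x j z b = true → dst x z + j = 5 →
      FF G9 β0 j (far x) z ≤ 9 ^ j * (1 / 100) ^ b := by
  induction j with
  | zero =>
    intro z b hb _
    cases b with
    | zero => simpa [FF_zero] using far_le x z
    | succ b => simp [ok] at hb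
  | succ j ih =>
    intro z b hb hz
    cases b with
    | zero => simpa using FF_le G9 β0 (far x) (far_le x) (j + 1) z
    | succ b =>
      rw [FF_succ]
      simp only [ok, List.all_eq_true, List.mem_finRange, forall_true_left, Bool.or_eq_true,
        bne_iff_ne] at hb
      calc _ ≤ ∑ _v : Fin 9, (9 : ℝ) ^ j * (1 / 100) ^ (b + 1) := by
            refine Finset.sum_le_sum fun v _ => ?_
            rw [FF_far_zero x j z (by omega), mul_zero, zero_add]
            by_cases h : z v = x v
            · have h1 := ih _ _ ((hb v).resolve_left (not_not.2 h))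
                (by rw [dst_flp_eq x z v h]; omega)
              have h2 := (fp_bounds v z).1
              have h3 := FF_nonneg G9 β0 (far x) (far_nonneg x) j (flp v z)
              calc _ ≤ (1 / 100) ^ cost v z * (9 ^ j * (1 / 100) ^ (b + 1 - cost v z)) :=
                    mul_le_mul h2 h1 h3 (by positivity)
                _ = 9 ^ j * (1 / 100) ^ (cost v z + (b + 1 - cost v z)) := by
                    rw [pow_add]; ring
                _ ≤ _ := by
                    refine mul_le_mul_of_nonneg_left ?_ (by positivity)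
                    exact pow_le_pow_of_le_one (by norm_num) (by norm_num) (by omega)
            · have := dst_flp_ne x z v h
              rw [FF_far_zero x j _ (by omega), mul_zero]
              positivity
        _ = _ := by simp [pow_succ]; ring

def x0 : Fin 9 → Bool := fun v => v != 0
def y0 : Fin 9 → Bool := fun v => v == 0

theorem ok_x0 : ok x0 5 x0 8 = true := by decide +kernel
theorem ok_y0 : ok y0 5 y0 8 = true := by decide +kernel

noncomputable def t0 : ℝ := 1 / 10 ^ 20

theorem dst_self (x : Fin 9 → Bool) : dst x x = 0 := by simp [dst]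

theorem far_mass (x : Fin 9 → Bool) (hx : ok x 5 x 8 = true) :
    ∑ z, glauber G9 β0 t0 x z * far x z ≤
      Real.exp (-(Fintype.card (Fin 9) * t0)) * (t0 ^ 5 / 10 ^ 12) := by
  have h := hasSum_glauber G9 β0 t0 (far x) x
  set E := Real.exp (-(Fintype.card (Fin 9) * t0)) with hE
  have hE0 : 0 < E := Real.exp_pos _
  have ht0 : 0 < t0 := by unfold t0; positivity
  have h6 := (hasSum_nat_add_iff' 6).2 h
  have hg := hasSum_geometric_two.mul_left (E * (9 * t0) ^ 6)
  have hle := hasSum_le (fun k => ?_) h6 hg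
  · have hz : ∀ j < 5, FF G9 β0 j (far x) x = 0 := fun j hj =>
      FF_far_zero x j x (by rw [dst_self]; omega)
    have h5 := FF_far_le x 5 x 8 hx (by rw [dst_self])
    simp only [Finset.sum_range_succ, Finset.sum_range_zero, hz 0 (by omega), hz 1 (by omega),
      hz 2 (by omega), hz 3 (by omega), hz 4 (by omega), mul_zero, add_zero, zero_add] at hle
    have h7 : cf t0 5 * FF G9 β0 5 (far x) x ≤ cf t0 5 * (9 ^ 5 * (1 / 100) ^ 8) :=
      mul_le_mul_of_nonneg_left h5 (cf_nonneg ht0.le _)
    have h8 := mul_le_mul_of_nonneg_left h7 hE0.le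
    have h9 : cf t0 5 * (9 ^ 5 * (1 / 100) ^ 8) + (9 * t0) ^ 6 * 2 ≤ t0 ^ 5 / 10 ^ 12 := by
      unfold cf t0
      norm_num [Nat.factorial]
    have h10 := mul_le_mul_of_nonneg_left h9 hE0.le
    linarith
  · have h1 := FF_le G9 β0 (far x) (far_le x) (k + 6) x
    have h2 : cf t0 (k + 6) ≤ t0 ^ (k + 6) := by
      unfold cf
      have : ((k + 6).factorial : ℝ)⁻¹ ≤ 1 :=
        inv_le_one_of_one_le₀ (by exact_mod_cast Nat.factorial_pos _)
      have h3 : 0 ≤ t0 ^ (k + 6) := by positivity
      nlinarith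
    have h3 := FF_nonneg G9 β0 (far x) (far_nonneg x) (k + 6) x
    have h4 : cf t0 (k + 6) * FF G9 β0 (k + 6) (far x) x ≤ t0 ^ (k + 6) * 9 ^ (k + 6) :=
      mul_le_mul h2 (by simpa using h1) h3 (by positivity)
    have h5 : (9 * t0) ^ k ≤ (1 / 2) ^ k :=
      pow_le_pow_left₀ (by positivity) (by unfold t0; norm_num) k
    have h6 : t0 ^ (k + 6) * 9 ^ (k + 6) ≤ (9 * t0) ^ 6 * (1 / 2) ^ k := by
      calc t0 ^ (k + 6) * 9 ^ (k + 6) = (9 * t0) ^ 6 * (9 * t0) ^ k := by ring
        _ ≤ _ := mul_le_mul_of_nonneg_left h5 (by positivity)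
    rw [mul_assoc]
    exact mul_le_mul_of_nonneg_left (h4.trans h6) hE0.le

theorem path_step (z0 z : Fin 9 → Bool) (v : Fin 9) (k c : ℕ) (a : ℝ) (ha : 0 ≤ a)
    (hc : cost v z = c)
    (h : a ≤ FF G9 β0 k (fun w => if w = z0 then 1 else 0) (flp v z)) :
    (1 / 100) ^ c / 2 * a ≤ FF G9 β0 (k + 1) (fun w => if w = z0 then 1 else 0) z := by
  refine le_trans ?_ (FF_ge G9 β0 _ (fun w => by split_ifs <;> norm_num) k v z)
  have := (fp_bounds v z).2
  rw [hc] at this
  exact mul_le_mul this h ha (fp_pos _ _ _ _).le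

def z0 : Fin 9 → Bool := fun v => 5 ≤ v

theorem plus_path : (1 / 100) ^ 4 / 32 ≤
    FF G9 β0 5 (fun w => if w = z0 then 1 else 0) (fun _ => true) := by
  have h0 : (1 : ℝ) ≤ FF G9 β0 0 (fun w => if w = z0 then 1 else 0)
      (flp 2 (flp 0 (flp 1 (flp 4 (flp 3 fun _ => true))))) := by
    rw [FF_zero, if_pos (by decide +kernel)]
  have h1 := path_step z0 _ 2 0 0 _ (by norm_num) (by decide +kernel) h0
  have h2 := path_step z0 _ 0 1 0 _ (by norm_num) (by decide +kernel) h1
  have h3 := path_step z0 _ 1 2 0 _ (by norm_num) (by decide +kernel) h2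
  have h4 := path_step z0 _ 4 3 0 _ (by norm_num) (by decide +kernel) h3
  have h5 := path_step z0 _ 3 4 4 _ (by norm_num) (by decide +kernel) h4
  refine le_trans (le_of_eq ?_) h5
  norm_num

theorem minus_path : (1 / 100) ^ 8 / 16 ≤
    FF G9 β0 4 (fun w => if w = z0 then 1 else 0) (fun _ => false) := by
  have h0 : (1 : ℝ) ≤ FF G9 β0 0 (fun w => if w = z0 then 1 else 0)
      (flp 6 (flp 5 (flp 8 (flp 7 fun _ => false)))) := by
    rw [FF_zero, if_pos (by decide +kernel)]
  have h1 := path_step z0 _ 6 0 0 _ (by norm_num) (by decide +kernel) h0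
  have h2 := path_step z0 _ 5 1 0 _ (by norm_num) (by decide +kernel) h1
  have h3 := path_step z0 _ 8 2 2 _ (by norm_num) (by decide +kernel) h2
  have h4 := path_step z0 _ 7 3 6 _ (by norm_num) (by decide +kernel) h3
  refine le_trans (le_of_eq ?_) h4
  norm_num

theorem dst_compl (z : Fin 9 → Bool) : dst x0 z + dst y0 z = 9 := by
  unfold dst
  have : (univ.filter fun v => z v ≠ y0 v) = univ.filter fun v => ¬ (z v ≠ x0 v) := by
    ext v
    simp only [mem_filter, mem_univ, true_and, x0, y0]
    cases z v <;> by_cases h : v = 0 <;> simp [h]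
  rw [this, Finset.card_filter_add_card_filter_not]
  simp

theorem main : tv (glauber G9 β0 t0 fun _ => true) (glauber G9 β0 t0 fun _ => false) <
    tv (glauber G9 β0 t0 x0) (glauber G9 β0 t0 y0) := by
  have ht0 : 0 < t0 := by unfold t0; positivity
  have hx := far_mass x0 ok_x0
  have hy := far_mass y0 ok_y0
  have hp := glauber_ge G9 β0 ht0.le (fun _ => true) z0 5
  have hm := glauber_ge G9 β0 ht0.le (fun _ => false) z0 4
  set E := Real.exp (-(Fintype.card (Fin 9) * t0)) with hE
  have hE0 : 0 < E := Real.exp_pos _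
  have a1 : t0 ^ 5 / 10 ^ 12 * (5 / 2) ≤ cf t0 5 * ((1 / 100) ^ 4 / 32) := by
    unfold cf t0; norm_num [Nat.factorial]
  have a2 : t0 ^ 5 / 10 ^ 12 * (5 / 2) ≤ cf t0 4 * ((1 / 100) ^ 8 / 16) := by
    unfold cf t0; norm_num [Nat.factorial]
  have b1 := mul_le_mul_of_nonneg_left
    (a1.trans (mul_le_mul_of_nonneg_left plus_path (cf_nonneg ht0.le 5))) hE0.le
  have b2 := mul_le_mul_of_nonneg_left
    (a2.trans (mul_le_mul_of_nonneg_left minus_path (cf_nonneg ht0.le 4))) hE0.le
  have up := tv_le _ _ (glauber_nonneg G9 β0 ht0.le fun _ => true)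
    (glauber_nonneg G9 β0 ht0.le fun _ => false) (glauber_row _ _ _ _) (glauber_row _ _ _ _) z0 _
    (b1.trans hp) (b2.trans hm)
  have lo := le_tv (glauber G9 β0 t0 x0) (glauber G9 β0 t0 y0)
    (univ.filter fun z => 5 ≤ dst y0 z)
  have c1 : ∑ z ∈ univ.filter (fun z => 5 ≤ dst y0 z), glauber G9 β0 t0 y0 z =
      ∑ z, glauber G9 β0 t0 y0 z * far y0 z := by
    rw [Finset.sum_filter]
    refine Finset.sum_congr rfl fun z _ => ?_
    unfold far
    split_ifs <;> simp
  have c2 : ∑ z ∈ univ.filter (fun z => 5 ≤ dst y0 z), glauber G9 β0 t0 x0 z +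
      ∑ z, glauber G9 β0 t0 x0 z * far x0 z = 1 := by
    rw [Finset.sum_filter, ← Finset.sum_add_distrib, ← glauber_row G9 β0 t0 x0]
    refine Finset.sum_congr rfl fun z _ => ?_
    have := dst_compl z
    unfold far
    split_ifs <;> first | omega | simp
  have hpos : 0 < E * (t0 ^ 5 / 10 ^ 12) := by positivity
  have e : E * (t0 ^ 5 / 10 ^ 12 * (5 / 2)) = E * (t0 ^ 5 / 10 ^ 12) * (5 / 2) := by ring
  linarith

end Pool.Agent.H194Z.Ising
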