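import Pool.Agent.H194Z.IsingDefs

set_option autoImplicit false

namespace Pool.Agent.H194Z.Ising

open Finset Matrix

variable {V : Type} [Fintype V] [DecidableEq V]

def flp (v : V) (σ : V → Bool) : V → Bool := Function.update σ v (!σ v)

omit [Fintype V] in
theorem flp_ne (v : V) (σ : V → Bool) : flp v σ ≠ σ := by
  intro h
  have := congrFun h v
  simp [flp] at this

omit [DecidableEq V] in
theorem weight_pos (G : SimpleGraph V) (β : ℝ) (σ : V → Bool) : 0 < weight G β σ :=
  Real.exp_pos _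

omit [Fintype V] in
theorem agree_iff (v : V) (σ τ : V → Bool) :
    (∀ u, u ≠ v → τ u = σ u) ↔ τ = σ ∨ τ = flp v σ := by
  constructor
  · intro h
    by_cases hv : τ v = σ v
    · left
      funext u
      by_cases hu : u = v
      · rw [hu, hv]
      · exact h u hu
    · right
      funext u
      by_cases hu : u = v
      · subst hu
        simp only [flp, Function.update_self]
        cases h1 : τ u <;> cases h2 : σ u <;> simp_all
      · simp [flp, Function.update_of_ne hu, h u hu]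
  · rintro (rfl | rfl) u hu
    · rfl
    · simp [flp, Function.update_of_ne hu]

/-- flip probability -/
noncomputable def fp (G : SimpleGraph V) (β : ℝ) (v : V) (σ : V → Bool) : ℝ :=
  weight G β (flp v σ) / (weight G β σ + weight G β (flp v σ))

theorem fp_pos (G : SimpleGraph V) (β : ℝ) (v : V) (σ : V → Bool) : 0 < fp G β v σ :=
  div_pos (weight_pos _ _ _) (add_pos (weight_pos _ _ _) (weight_pos _ _ _))

theorem fp_le_one (G : SimpleGraph V) (β : ℝ) (v : V) (σ : V → Bool) : fp G β v σ ≤ 1 := by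
  unfold fp
  have h1 := weight_pos G β σ
  have h2 := weight_pos G β (flp v σ)
  rw [div_le_one (by linarith)]
  linarith

theorem heatBath_apply (G : SimpleGraph V) (β : ℝ) (v : V) (σ τ : V → Bool) :
    heatBath G β v σ τ =
      (if τ = σ then 1 - fp G β v σ else 0) + (if τ = flp v σ then fp G β v σ else 0) := by
  have hZ : 0 < ∑ τ, weight G β τ :=
    Finset.sum_pos (fun τ _ => weight_pos G β τ) Finset.univ_nonempty
  have hf : univ.filter (fun ρ : V → Bool => ∀ u, u ≠ v → ρ u = σ u) = {σ, flp v σ} := by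
    ext ρ
    simp only [mem_filter, mem_univ, true_and, mem_insert, mem_singleton]
    exact agree_iff v σ ρ
  have h1 := weight_pos G β σ
  have h2 := weight_pos G β (flp v σ)
  have hne := flp_ne v σ
  unfold heatBath
  rw [hf, Finset.sum_pair hne.symm]
  by_cases ha : τ = σ
  · subst ha
    rw [if_pos (fun _ _ => rfl), if_pos rfl, if_neg hne.symm]
    unfold gibbs fp
    field_simp
    ring
  · by_cases hb : τ = flp v σ
    · subst hb
      rw [if_pos ((agree_iff v σ _).2 (Or.inr rfl)), if_neg ha, if_pos rfl]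
      unfold gibbs fp
      field_simp
      ring
    · rw [if_neg (by rw [agree_iff]; tauto), if_neg ha, if_neg hb, add_zero]

/-- sum of the heat-bath kernels -/
noncomputable def KK (G : SimpleGraph V) (β : ℝ) : Matrix (V → Bool) (V → Bool) ℝ :=
  ∑ v, heatBath G β v

theorem KK_mulVec (G : SimpleGraph V) (β : ℝ) (g : (V → Bool) → ℝ) (σ : V → Bool) :
    (KK G β *ᵥ g) σ = ∑ v, ((1 - fp G β v σ) * g σ + fp G β v σ * g (flp v σ)) := by
  unfold KK
  rw [Matrix.sum_mulVec, Finset.sum_apply]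
  refine Finset.sum_congr rfl fun v _ => ?_
  simp only [Matrix.mulVec, dotProduct, heatBath_apply, add_mul, Finset.sum_add_distrib, ite_mul,
    zero_mul, Finset.sum_ite_eq', mem_univ, if_true]

/-- `K^k g` -/
noncomputable def FF (G : SimpleGraph V) (β : ℝ) (k : ℕ) (g : (V → Bool) → ℝ) : (V → Bool) → ℝ :=
  (KK G β ^ k) *ᵥ g

theorem FF_zero (G : SimpleGraph V) (β : ℝ) (g : (V → Bool) → ℝ) : FF G β 0 g = g := by
  simp [FF]

theorem FF_succ (G : SimpleGraph V) (β : ℝ) (k : ℕ) (g : (V → Bool) → ℝ) (σ : V → Bool) :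
    FF G β (k + 1) g σ =
      ∑ v, ((1 - fp G β v σ) * FF G β k g σ + fp G β v σ * FF G β k g (flp v σ)) := by
  unfold FF
  rw [pow_succ', ← Matrix.mulVec_mulVec, KK_mulVec]

theorem FF_nonneg (G : SimpleGraph V) (β : ℝ) (g : (V → Bool) → ℝ) (hg : ∀ z, 0 ≤ g z) (k : ℕ) :
    ∀ z, 0 ≤ FF G β k g z := by
  induction k with
  | zero => rw [FF_zero]; exact hg
  | succ k ih =>
    intro z
    rw [FF_succ]
    refine Finset.sum_nonneg fun v _ => add_nonneg (mul_nonneg ?_ (ih _))
      (mul_nonneg (fp_pos _ _ _ _).le (ih _))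
    linarith [fp_le_one G β v z]

theorem FF_le (G : SimpleGraph V) (β : ℝ) (g : (V → Bool) → ℝ) (hg : ∀ z, g z ≤ 1) (k : ℕ) :
    ∀ z, FF G β k g z ≤ (Fintype.card V : ℝ) ^ k := by
  induction k with
  | zero => rw [FF_zero]; simpa using hg
  | succ k ih =>
    intro z
    rw [FF_succ]
    calc _ ≤ ∑ _v : V, (Fintype.card V : ℝ) ^ k := by
          refine Finset.sum_le_sum fun v _ => ?_
          have h1 := fp_le_one G β v z
          have h2 := fp_pos G β v z
          have h3 := ih z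
          have h4 := ih (flp v z)
          nlinarith
      _ = _ := by simp [pow_succ, mul_comm]

theorem FF_one (G : SimpleGraph V) (β : ℝ) (k : ℕ) :
    ∀ z, FF G β k (fun _ => 1) z = (Fintype.card V : ℝ) ^ k := by
  induction k with
  | zero => rw [FF_zero]; simp
  | succ k ih =>
    intro z
    rw [FF_succ]
    calc _ = ∑ _v : V, (Fintype.card V : ℝ) ^ k := by
          refine Finset.sum_congr rfl fun v _ => ?_
          rw [ih, ih]; ring
      _ = _ := by simp [pow_succ, mul_comm]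

theorem FF_ge (G : SimpleGraph V) (β : ℝ) (g : (V → Bool) → ℝ) (hg : ∀ z, 0 ≤ g z) (k : ℕ)
    (v : V) (z : V → Bool) : fp G β v z * FF G β k g (flp v z) ≤ FF G β (k + 1) g z := by
  rw [FF_succ]
  have hn := FF_nonneg G β g hg k
  refine le_trans ?_ (Finset.single_le_sum (f := fun v =>
    (1 - fp G β v z) * FF G β k g z + fp G β v z * FF G β k g (flp v z)) (fun u _ => ?_)
    (mem_univ v))
  · have : 0 ≤ (1 - fp G β v z) * FF G β k g z :=
      mul_nonneg (by linarith [fp_le_one G β v z]) (hn _)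
    linarith
  · exact add_nonneg (mul_nonneg (by linarith [fp_le_one G β u z]) (hn _))
      (mul_nonneg (fp_pos _ _ _ _).le (hn _))

/-- coefficients of the exponential series -/
noncomputable def cf (t : ℝ) (n : ℕ) : ℝ := (n.factorial : ℝ)⁻¹ * t ^ n

theorem cf_nonneg {t : ℝ} (ht : 0 ≤ t) (n : ℕ) : 0 ≤ cf t n := by
  unfold cf; positivity

set_option backward.isDefEq.respectTransparency false in
open scoped Matrix.Norms.Operator in
theorem hasSum_E {Ω : Type} [Fintype Ω] [DecidableEq Ω] (K : Matrix Ω Ω ℝ) (t : ℝ) :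
    HasSum (fun n : ℕ => cf t n • K ^ n) (NormedSpace.exp (t • K)) := by
  have h := NormedSpace.exp_series_hasSum_exp' (𝕂 := ℝ) (t • K)
  have e : (fun n : ℕ => cf t n • K ^ n) = fun n : ℕ => ((n.factorial : ℝ)⁻¹) • (t • K) ^ n := by
    funext n
    rw [smul_pow, smul_smul, cf]
  rw [e]
  exact h

theorem hasSum_mulVec {Ω : Type} [Fintype Ω] [DecidableEq Ω] (K : Matrix Ω Ω ℝ) (t : ℝ)
    (g : Ω → ℝ) (x : Ω) :
    HasSum (fun n : ℕ => cf t n * ((K ^ n) *ᵥ g) x) ((NormedSpace.exp (t • K) *ᵥ g) x) := by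
  have h := hasSum_E K t
  have h1 : ∀ y, HasSum (fun n : ℕ => cf t n * (K ^ n) x y * g y)
      (NormedSpace.exp (t • K) x y * g y) := fun y => by
    have := (Pi.hasSum.1 (Pi.hasSum.1 h x) y).mul_right (g y)
    simpa using this
  have h2 := hasSum_sum (s := (univ : Finset Ω)) (fun y _ => h1 y)
  simp only [Matrix.mulVec, dotProduct, Finset.mul_sum, ← mul_assoc]
  exact h2

theorem glauber_eq (G : SimpleGraph V) (β t : ℝ) :
    glauber G β t = Real.exp (-(Fintype.card V * t)) • NormedSpace.exp (t • KK G β) := by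
  have h1 : t • generator G β =
      t • KK G β + Matrix.diagonal (fun _ : V → Bool => -(Fintype.card V * t)) := by
    unfold generator KK
    rw [Finset.sum_sub_distrib, smul_sub, sub_eq_add_neg]
    congr 1
    ext i j
    by_cases h : i = j
    · subst h; simp [mul_comm, Matrix.natCast_apply]
    · simp [Matrix.natCast_apply, h]
  have hc : Commute (t • KK G β) (Matrix.diagonal (fun _ : V → Bool => -(Fintype.card V * t))) := by
    show _ * _ = _ * _
    ext i j
    rw [Matrix.mul_diagonal, Matrix.diagonal_mul, mul_comm]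
  rw [glauber, h1, Matrix.exp_add_of_commute _ _ hc, Matrix.exp_diagonal]
  ext i j
  rw [Matrix.mul_diagonal, Matrix.smul_apply, smul_eq_mul, mul_comm]
  congr 1
  rw [Pi.coe_exp, Real.exp_eq_exp_ℝ]

theorem hasSum_glauber (G : SimpleGraph V) (β t : ℝ) (g : (V → Bool) → ℝ) (x : V → Bool) :
    HasSum (fun n : ℕ => Real.exp (-(Fintype.card V * t)) * (cf t n * FF G β n g x))
      (∑ z, glauber G β t x z * g z) := by
  have h := (hasSum_mulVec (KK G β) t g x).mul_left (Real.exp (-(Fintype.card V * t)))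
  have e : ∑ z, glauber G β t x z * g z =
      Real.exp (-(Fintype.card V * t)) * (NormedSpace.exp (t • KK G β) *ᵥ g) x := by
    rw [glauber_eq]
    simp only [Matrix.mulVec, dotProduct, Matrix.smul_apply, smul_eq_mul, Finset.mul_sum, mul_assoc]
  rw [e]
  exact h

theorem glauber_row (G : SimpleGraph V) (β t : ℝ) (x : V → Bool) :
    ∑ z, glauber G β t x z = 1 := by
  have h := hasSum_glauber G β t (fun _ => 1) x
  simp only [mul_one, FF_one] at h
  refine h.unique ?_
  have h2 := NormedSpace.exp_series_hasSum_exp' (𝕂 := ℝ) ((Fintype.card V : ℝ) * t)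
  rw [← Real.exp_eq_exp_ℝ] at h2
  have h3 := h2.mul_left (Real.exp (-(Fintype.card V * t)))
  rw [← Real.exp_add, neg_add_cancel, Real.exp_zero] at h3
  have e : (fun n : ℕ => Real.exp (-(Fintype.card V * t)) * (cf t n * (Fintype.card V : ℝ) ^ n)) =
      fun n : ℕ => Real.exp (-(Fintype.card V * t)) *
        ((n.factorial : ℝ)⁻¹ • ((Fintype.card V : ℝ) * t) ^ n) := by
    funext n
    simp only [cf, smul_eq_mul, mul_pow]
    ring
  rw [e]
  exact h3

theorem glauber_ge (G : SimpleGraph V) (β : ℝ) {t : ℝ} (ht : 0 ≤ t) (x z : V → Bool) (k : ℕ) :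
    Real.exp (-(Fintype.card V * t)) * (cf t k * FF G β k (fun w => if w = z then 1 else 0) x) ≤
      glauber G β t x z := by
  have h := hasSum_glauber G β t (fun w => if w = z then 1 else 0) x
  simp only [mul_ite, mul_one, mul_zero, Finset.sum_ite_eq', mem_univ, if_true] at h
  refine le_hasSum h k fun j _ => ?_
  refine mul_nonneg (Real.exp_pos _).le (mul_nonneg (cf_nonneg ht _) (FF_nonneg _ _ _ ?_ _ _))
  intro w
  split_ifs <;> norm_num

theorem glauber_nonneg (G : SimpleGraph V) (β : ℝ) {t : ℝ} (ht : 0 ≤ t) (x z : V → Bool) :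
    0 ≤ glauber G β t x z := by
  refine le_trans ?_ (glauber_ge G β ht x z 0)
  refine mul_nonneg (Real.exp_pos _).le (mul_nonneg (cf_nonneg ht _) (FF_nonneg _ _ _ ?_ _ _))
  intro w
  split_ifs <;> norm_num

theorem tv_le {Ω : Type} [Fintype Ω] (μ ν : Ω → ℝ) (hμ : ∀ z, 0 ≤ μ z) (hν : ∀ z, 0 ≤ ν z)
    (sμ : ∑ z, μ z = 1) (sν : ∑ z, ν z = 1) (z0 : Ω) (m : ℝ) (h1 : m ≤ μ z0) (h2 : m ≤ ν z0) :
    tv μ ν ≤ 1 - m := by
  classical
  unfold tv
  refine Finset.sup'_le _ _ fun A _ => ?_
  have a1 := Finset.sum_add_sum_compl A μ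
  have a2 := Finset.sum_add_sum_compl A ν
  have b1 : 0 ≤ ∑ z ∈ A, μ z := Finset.sum_nonneg fun z _ => hμ z
  have b2 : 0 ≤ ∑ z ∈ A, ν z := Finset.sum_nonneg fun z _ => hν z
  have b3 : 0 ≤ ∑ z ∈ Aᶜ, μ z := Finset.sum_nonneg fun z _ => hμ z
  have b4 : 0 ≤ ∑ z ∈ Aᶜ, ν z := Finset.sum_nonneg fun z _ => hν z
  rw [abs_le]
  by_cases hz : z0 ∈ A
  · have c1 : μ z0 ≤ ∑ z ∈ A, μ z := Finset.single_le_sum (fun z _ => hμ z) hz
    have c2 : ν z0 ≤ ∑ z ∈ A, ν z := Finset.single_le_sum (fun z _ => hν z) hz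
    constructor <;> linarith
  · have hz' : z0 ∈ Aᶜ := Finset.mem_compl.2 hz
    have c1 : μ z0 ≤ ∑ z ∈ Aᶜ, μ z := Finset.single_le_sum (fun z _ => hμ z) hz'
    have c2 : ν z0 ≤ ∑ z ∈ Aᶜ, ν z := Finset.single_le_sum (fun z _ => hν z) hz'
    constructor <;> linarith

theorem le_tv {Ω : Type} [Fintype Ω] (μ ν : Ω → ℝ) (A : Finset Ω) :
    ∑ z ∈ A, μ z - ∑ z ∈ A, ν z ≤ tv μ ν := by
  unfold tv
  exact le_trans (le_abs_self _) (Finset.le_sup' (fun A : Finset Ω =>
    |∑ z ∈ A, μ z - ∑ z ∈ A, ν z|) (mem_univ A))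

end Pool.Agent.H194Z.Ising
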