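import Pool.Agent.H194Z.PiDigits

set_option autoImplicit false
set_option linter.unusedSectionVars false

namespace Pool.Agent.H194Z.PiAdic

open Finset Module

variable {R : Type} [CommRing R] {d N : ℕ} (b : Basis (Fin d) ℤ R) (π : R) (n : ℕ)

section
variable [Fintype (Qn π n)] [DecidableEq (Qn π n)]

/-- pairs `(A, f)` with `g A = f` -/
theorem count_pairs [IsDomain R] {g : R} (hg : g ≠ 0) (X : ℕ) :
    ((univ ×ˢ box b X).filter fun p : Qn π n × R => qmk π n g * p.1 = qmk π n p.2).card ≤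
      (box b (X + C0 b * nu b g)).card := by
  have h1 : ∀ A : Qn π n, ∃ p : R × Qn π n,
      qmk π n p.1 = A - qmk π n g * p.2 ∧ nu b p.1 ≤ C0 b * nu b g := by
    intro A
    obtain ⟨x, rfl⟩ := Ideal.Quotient.mk_surjective A
    obtain ⟨t, r, hx, hr⟩ := small_rep b hg x
    refine ⟨(r, qmk π n t), ?_, hr⟩
    simp only
    rw [hx]
    simp
  choose rt hrt1 hrt2 using h1
  have h2 : (((univ ×ˢ box b X).filter fun p : Qn π n × R => qmk π n g * p.1 = qmk π n p.2) ×ˢ
      (univ : Finset (Qn π n))).card ≤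
      ((box b (X + C0 b * nu b g)) ×ˢ (univ : Finset (Qn π n))).card := by
    refine Finset.card_le_card_of_injOn
      (fun p => (p.1.2 + (rt p.2).1, p.1.1 - (rt p.2).2)) ?_ ?_
    · intro p hp
      simp only [coe_product, coe_filter, mem_product, mem_univ, true_and, coe_univ,
        Set.mem_prod, Set.mem_ofPred_eq, Set.mem_univ, and_true, mem_coe] at hp ⊢
      rw [mem_box] at hp ⊢
      exact (nu_add b _ _).trans (Nat.add_le_add hp.1 (hrt2 _))
    · rintro ⟨⟨A, f⟩, A'⟩ hp ⟨⟨B, e⟩, B'⟩ hq hpq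
      simp only [coe_product, coe_filter, mem_product, mem_univ, true_and, coe_univ,
        Set.mem_prod, Set.mem_ofPred_eq, Set.mem_univ, and_true] at hp hq
      simp only [Prod.mk.injEq] at hpq
      obtain ⟨e1, e2⟩ := hpq
      have e3 := congrArg (qmk π n) e1
      rw [map_add, map_add, hrt1, hrt1, ← hp.2, ← hq.2] at e3
      have e4 : A' = B' := by linear_combination e3 - qmk π n g * e2
      subst e4
      have e5 : A = B := by linear_combination e2
      have e6 : f = e := by linear_combination e1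
      rw [e5, e6]
  rw [Finset.card_product, Finset.card_product] at h2
  exact Nat.le_of_mul_le_mul_right h2 (Finset.card_pos.2 univ_nonempty)

/-- the classes `f - g A` with small `f`, `g` -/
noncomputable def PP (A : Qn π n) (k : ℕ) : Finset (Qn π n) :=
  (box b k ×ˢ box b k).image fun p : R × R => qmk π n p.1 - qmk π n p.2 * A

theorem mem_PP {A y : Qn π n} {k : ℕ} :
    y ∈ PP b π n A k ↔ ∃ f g : R, nu b f ≤ k ∧ nu b g ≤ k ∧ qmk π n f - qmk π n g * A = y := by
  unfold PP
  simp only [mem_image, mem_product, mem_box, Prod.exists, and_assoc]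

theorem PP_add {A y z : Qn π n} {k l : ℕ} (hy : y ∈ PP b π n A k) (hz : z ∈ PP b π n A l) :
    y + z ∈ PP b π n A (k + l) := by
  rw [mem_PP] at *
  obtain ⟨f, g, h1, h2, rfl⟩ := hy
  obtain ⟨f', g', h3, h4, rfl⟩ := hz
  refine ⟨f + f', g + g', (nu_add b _ _).trans (by omega), (nu_add b _ _).trans (by omega), ?_⟩
  simp only [map_add]; ring

theorem PP_neg {A y : Qn π n} {k : ℕ} (hy : y ∈ PP b π n A k) : -y ∈ PP b π n A k := by
  rw [mem_PP] at *
  obtain ⟨f, g, h1, h2, rfl⟩ := hy
  refine ⟨-f, -g, by rwa [nu_neg], by rwa [nu_neg], ?_⟩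
  simp only [map_neg]; ring

theorem PP_mono {A : Qn π n} {k l : ℕ} (h : k ≤ l) : PP b π n A k ⊆ PP b π n A l := by
  intro y hy
  rw [mem_PP] at *
  obtain ⟨f, g, h1, h2, rfl⟩ := hy
  exact ⟨f, g, h1.trans h, h2.trans h, rfl⟩

theorem PP_zero (A : Qn π n) (k : ℕ) : 0 ∈ PP b π n A k :=
  (mem_PP b π n).2 ⟨0, 0, by simp [nu_zero], by simp [nu_zero], by simp⟩

theorem PP_grow (A : Qn π n) (k : ℕ) (h : PP b π n A k ≠ univ) :
    ∃ y ∈ PP b π n A (k + 1), y ∉ PP b π n A k := by
  by_contra hc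
  push Not at hc
  apply h
  have h1 : ∀ j, PP b π n A (k + j) ⊆ PP b π n A k := by
    intro j
    induction j with
    | zero => exact subset_rfl
    | succ j ih =>
      intro y hy
      obtain ⟨f, g, hf, hg, rfl⟩ := (mem_PP b π n).1 hy
      have split : ∀ x : R, nu b x ≤ k + (j + 1) →
          ∃ x1 x2 : R, x = x1 + x2 ∧ nu b x1 ≤ k + j ∧ nu b x2 ≤ 1 := by
        intro x hx
        refine ⟨x - b.equivFun.symm fun i => (b.repr x i).sign,
          b.equivFun.symm fun i => (b.repr x i).sign, by ring, nu_le b fun i => ?_,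
          nu_le b fun i => ?_⟩
        · rw [map_sub, Finsupp.sub_apply, ← Basis.equivFun_apply b (b.equivFun.symm _),
            LinearEquiv.apply_symm_apply]
          have := (le_nu b x i).trans hx
          rcases lt_trichotomy (b.repr x i) 0 with h0 | h0 | h0
          · rw [Int.sign_eq_neg_one_of_neg h0]; omega
          · rw [h0]; simp
          · rw [Int.sign_eq_one_of_pos h0]; omega
        · rw [← Basis.equivFun_apply, LinearEquiv.apply_symm_apply, Int.natAbs_sign]
          split_ifs <;> omega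
      obtain ⟨f1, f2, rfl, a1, a2⟩ := split f hf
      obtain ⟨g1, g2, rfl, a3, a4⟩ := split g hg
      have m1 := ih ((mem_PP b π n).2 ⟨f1, g1, a1, a3, rfl⟩)
      have m2 : _ ∈ PP b π n A 1 := (mem_PP b π n).2 ⟨f2, g2, a2, a4, rfl⟩
      have m3 := hc _ (PP_add b π n m1 m2)
      convert m3 using 1
      simp only [map_add]; ring
  rw [Finset.eq_univ_iff_forall]
  intro y
  obtain ⟨x, rfl⟩ := Ideal.Quotient.mk_surjective y
  exact h1 (nu b x) ((mem_PP b π n).2 ⟨x, 0, by omega, by simp [nu_zero], by simp⟩)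

theorem PP_card (A : Qn π n) (X j : ℕ) (h : PP b π n A (j * (2 * X + 1)) ≠ univ) :
    j * (PP b π n A X).card ≤ (PP b π n A (j * (2 * X + 1))).card := by
  induction j with
  | zero => simp
  | succ j ih =>
    have hne : ∀ k, k ≤ (j + 1) * (2 * X + 1) → PP b π n A k ≠ univ := fun k hk hu =>
      h (Finset.eq_univ_iff_forall.2 fun y => PP_mono b π n hk (hu ▸ mem_univ y))
    have ih' := ih (hne _ (by nlinarith))
    obtain ⟨y, hy1, hy2⟩ := PP_grow b π n A (j * (2 * X + 1) + X) (hne _ (by nlinarith))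
    have hdisj : Disjoint (PP b π n A (j * (2 * X + 1)))
        ((PP b π n A X).map (addLeftEmbedding y)) := by
      rw [Finset.disjoint_left]
      intro z hz hz2
      obtain ⟨t, ht, rfl⟩ := Finset.mem_map.1 hz2
      apply hy2
      have := PP_add b π n hz (PP_neg b π n ht)
      simpa using this
    have hsub : PP b π n A (j * (2 * X + 1)) ∪ (PP b π n A X).map (addLeftEmbedding y) ⊆
        PP b π n A ((j + 1) * (2 * X + 1)) := by
      refine Finset.union_subset (PP_mono b π n (by nlinarith)) ?_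
      intro z hz
      obtain ⟨t, ht, rfl⟩ := Finset.mem_map.1 hz
      exact PP_mono b π n (le_of_eq (by ring)) (PP_add b π n hy1 ht)
    have := Finset.card_le_card hsub
    rw [Finset.card_union_of_disjoint hdisj, Finset.card_map] at this
    nlinarith

/-- lattice vectors in the box of radius `2 X` -/
noncomputable def ZZ (A : Qn π n) (X : ℕ) : ℕ :=
  ((box b (2 * X) ×ˢ box b (2 * X)).filter fun p : R × R => qmk π n p.2 * A = qmk π n p.1).card

theorem ZZ_pos (A : Qn π n) (X : ℕ) : 1 ≤ ZZ b π n A X :=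
  Finset.card_pos.2 ⟨(0, 0), by simp [mem_box, nu_zero]⟩

theorem le_PP_mul (A : Qn π n) (X : ℕ) :
    (2 * X + 1) ^ (2 * d) ≤ ZZ b π n A X * (PP b π n A X).card := by
  classical
  have h := Finset.card_le_mul_card_image (f := fun p : R × R => qmk π n p.1 - qmk π n p.2 * A)
    (box b X ×ˢ box b X) (ZZ b π n A X) ?_
  · rw [Finset.card_product, card_box, ← pow_add, ← two_mul] at h
    exact h
  · intro y hy
    obtain ⟨⟨f, g⟩, hfg, rfl⟩ := Finset.mem_image.1 hy
    simp only [mem_product, mem_box] at hfg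
    refine Finset.card_le_card_of_injOn (fun p => (p.1 - f, p.2 - g)) ?_ ?_
    · intro p hp
      simp only [coe_filter, mem_product, mem_box, Set.mem_ofPred_eq] at hp ⊢
      refine ⟨⟨(nu_sub b _ _).trans (by omega), (nu_sub b _ _).trans (by omega)⟩, ?_⟩
      simp only [map_sub]
      linear_combination -hp.2
    · intro p _ q _ hpq
      simp only [Prod.mk.injEq, sub_left_inj] at hpq
      exact Prod.ext hpq.1 hpq.2

theorem PP_univ (A : Qn π n) (X : ℕ) (hX : Fintype.card (Qn π n) ≤ (2 * X + 1) ^ (2 * d)) :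
    PP b π n A ((ZZ b π n A X + 1) * (2 * X + 1)) = univ := by
  by_contra h
  have h1 := PP_card b π n A X _ h
  have h2 := le_PP_mul b π n A X
  have h3 := Finset.card_le_univ (PP b π n A ((ZZ b π n A X + 1) * (2 * X + 1)))
  have h4 : 0 < (PP b π n A X).card := Finset.card_pos.2 ⟨0, PP_zero b π n A X⟩
  nlinarith

variable {b π}

theorem Good.exists_adm (h : Good N b π) (A : Qn π n) (X : ℕ)
    (hX : Fintype.card (Qn π n) ≤ (2 * X + 1) ^ (2 * d)) :
    ∃ f g : R, IsCoprime g π ∧ qmk π n g * A = qmk π n f ∧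
      max (nu b f) (nu b g) ≤ 3 * N * (ZZ b π n A X * (2 * X + 1)) := by
  have hN := h.hN
  obtain ⟨x, rfl⟩ := Ideal.Quotient.mk_surjective A
  obtain ⟨z, r, hx, hr⟩ := div_rem b x N (by omega)
  obtain ⟨f, g, hf, hg, hfg⟩ := (mem_PP b π n).1
    ((PP_univ b π n (qmk π n x) X hX).symm ▸ mem_univ (qmk π n z))
  have hZ := ZZ_pos b π n (qmk π n x) X
  set Z := ZZ b π n (qmk π n x) X
  refine ⟨r + (N : ℤ) • f, 1 + (N : ℤ) • g, ?_, ?_, max_le ?_ ?_⟩
  · obtain ⟨c, hc⟩ := h.dvd_N
    refine ⟨1, -(c * g), ?_⟩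
    simp only [zsmul_eq_mul, Int.cast_natCast]
    rw [hc]; ring
  · have e := congrArg (qmk π n) hx
    simp only [zsmul_eq_mul, Int.cast_natCast, map_add, map_mul, map_natCast, map_one] at e ⊢
    linear_combination e - (N : Qn π n) * hfg
  · refine (nu_add b _ _).trans ?_
    have h1 := nu_smul_le b (N : ℤ) f
    rw [Int.natAbs_natCast] at h1
    have h2 : N * nu b f ≤ N * ((Z + 1) * (2 * X + 1)) := Nat.mul_le_mul_left _ hf
    have h3 : N * ((Z + 1) * (2 * X + 1)) ≤ N * ((Z + Z) * (2 * X + 1)) :=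
      Nat.mul_le_mul_left _ (Nat.mul_le_mul_right _ (by omega))
    have h4 : N * 1 ≤ N * (Z * (2 * X + 1)) := Nat.mul_le_mul_left _ (by nlinarith)
    nlinarith
  · refine (nu_add b _ _).trans ?_
    have h0 := h.nu_one
    have h1 := nu_smul_le b (N : ℤ) g
    rw [Int.natAbs_natCast] at h1
    have h2 : N * nu b g ≤ N * ((Z + 1) * (2 * X + 1)) := Nat.mul_le_mul_left _ hg
    have h3 : N * ((Z + 1) * (2 * X + 1)) ≤ N * ((Z + Z) * (2 * X + 1)) :=
      Nat.mul_le_mul_left _ (Nat.mul_le_mul_right _ (by omega))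
    have h4 : N * 1 ≤ N * (Z * (2 * X + 1)) := Nat.mul_le_mul_left _ (by nlinarith)
    nlinarith

end

end Pool.Agent.H194Z.PiAdic
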