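import Mathlib

set_option autoImplicit false

namespace Pool.Agent.H194Z.PiAdic

open Finset
open scoped ENNReal

variable {R : Type} [CommRing R] {N : ℕ}

/-- The partial sum `∑_{i < k} a_i π ^ i` of the `π`-adic number with digit sequence `a`. -/
def psum (π : R) (a : ℕ → Fin N) (k : ℕ) : R := ∑ i ∈ range k, ((a i : ℕ) : R) * π ^ i

/-- The `π`-adic number `∑ a_i π ^ i` equals `f / g` with `g` invertible modulo `π`. -/
def IsQuot (π : R) (a : ℕ → Fin N) (f g : R) : Prop :=
  IsCoprime g π ∧ ∀ k, π ^ k ∣ g * psum π a k - f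

/-- The `π`-adic complexity of an infinite sequence for the size function `φ`: the least value of
`max (φ f) (φ g)` over all representations `f / g` (it is `∞` if there is none). -/
noncomputable def cx (φ : R → ℝ≥0∞) (π : R) (a : ℕ → Fin N) : ℝ≥0∞ :=
  ⨅ (f : R) (g : R) (_ : IsQuot π a f g), max (φ f) (φ g)

/-- The complexity of a finite sequence: the least complexity of an infinite extension. -/
noncomputable def finCx (φ : R → ℝ≥0∞) (π : R) (n : ℕ) (a : Fin n → Fin N) : ℝ≥0∞ :=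
  ⨅ (c : ℕ → Fin N) (_ : ∀ i : Fin n, c i = a i), cx φ π c

/-- The average complexity of the `N ^ n` finite sequences of length `n`. -/
noncomputable def avg (φ : R → ℝ≥0∞) (π : R) (N n : ℕ) : ℝ≥0∞ :=
  (∑ a : Fin n → Fin N, finCx φ π n a) / (N : ℝ≥0∞) ^ n

/-- Case (i): the size `log_N (u ^ 2 + N v ^ 2)` of `u + v π`, where `b` is the basis `1, π`
(the value at `0` is `0`). -/
noncomputable def sizeI (N : ℕ) (b : Module.Basis (Fin 2) ℤ R) (x : R) : ℝ≥0∞ :=
  ENNReal.ofReal (Real.logb N ((b.repr x 0 : ℝ) ^ 2 + N * (b.repr x 1 : ℝ) ^ 2))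

/-- Case (ii): the size `max_i (d log_N |u_i| + i)` of `∑ u_i π ^ i`, the maximum being over the
`i` with `u_i ≠ 0`, where `b` is the basis `1, π, …, π ^ (d - 1)` (the value at `0` is `0`). -/
noncomputable def sizeII (N : ℕ) {d : ℕ} (b : Module.Basis (Fin d) ℤ R) (x : R) : ℝ≥0∞ :=
  ⨆ (i : Fin d) (_ : b.repr x i ≠ 0),
    ENNReal.ofReal (d * Real.logb N |(b.repr x i : ℝ)| + (i : ℕ))

end Pool.Agent.H194Z.PiAdic
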