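import Pool.Agent.H194Z.PiNorm

set_option autoImplicit false

namespace Pool.Agent.H194Z.PiAdic

open Finset Module

variable {R : Type} [CommRing R] {d N : ℕ}

structure Good (N : ℕ) (b : Basis (Fin d) ℤ R) (π : R) : Prop where
  hN : 2 ≤ N
  hd : 0 < d
  hb : ∀ i, b i = π ^ (i : ℕ)
  hπ : π ^ d = N ∨ π ^ d = -N

variable {b : Basis (Fin d) ℤ R} {π : R}

theorem Good.pow_dvd (h : Good N b π) : π ^ d ∣ (N : R) := by
  rcases h.hπ with h1 | h1
  · rw [h1]
  · rw [h1]; exact neg_dvd.2 dvd_rfl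

theorem Good.dvd_pow (h : Good N b π) : (N : R) ∣ π ^ d := by
  rcases h.hπ with h1 | h1
  · rw [h1]
  · rw [h1]; exact dvd_neg.2 dvd_rfl

theorem Good.dvd_N (h : Good N b π) : π ∣ (N : R) := (dvd_pow_self π h.hd.ne').trans h.pow_dvd

theorem Good.b0 (h : Good N b π) : b ⟨0, h.hd⟩ = 1 := by rw [h.hb]; simp

theorem Good.nu_one (h : Good N b π) : nu b 1 ≤ 1 := by rw [← h.b0]; exact nu_basis b _

theorem Good.repr_int (h : Good N b π) (z : ℤ) : b.repr (z : R) ⟨0, h.hd⟩ = z := by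
  have : (z : R) = z • b ⟨0, h.hd⟩ := by rw [h.b0]; simp
  rw [this, map_smul, b.repr_self]
  simp

theorem Good.dvd_int (h : Good N b π) {z : ℤ} (hz : π ∣ (z : R)) : (N : ℤ) ∣ z := by
  obtain ⟨y, hy⟩ := hz
  rw [← h.repr_int z, hy, ← b.sum_repr y, Finset.mul_sum, map_sum, Finsupp.finsetSum_apply]
  refine Finset.dvd_sum fun i _ => ?_
  rw [mul_smul_comm, map_smul, Finsupp.smul_apply, smul_eq_mul]
  refine Dvd.dvd.mul_left ?_ _
  rw [h.hb, ← pow_succ']
  by_cases hi : (i : ℕ) + 1 < d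
  · have := h.hb ⟨i + 1, hi⟩
    simp only at this
    rw [← this, b.repr_self, Finsupp.single_apply, if_neg (by simp [Fin.ext_iff])]
    exact dvd_zero _
  · have hi' : (i : ℕ) + 1 = d := by have := i.2; omega
    rw [hi']
    rcases h.hπ with h1 | h1
    · rw [h1, show (N : R) = ((N : ℤ) : R) by simp, h.repr_int]
    · rw [h1, show -(N : R) = ((-N : ℤ) : R) by simp, h.repr_int]
      exact dvd_neg.2 dvd_rfl

theorem Good.ne_zero (h : Good N b π) : π ≠ 0 := by
  intro h0
  have h1 : (N : R) = 0 := by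
    have := h.dvd_N
    rwa [h0, zero_dvd_iff] at this
  have h2 := h.repr_int (N : ℤ)
  rw [Int.cast_natCast, h1, map_zero] at h2
  have := h.hN
  simp only [Finsupp.coe_zero, Pi.zero_apply] at h2
  omega

theorem Good.digit (h : Good N b π) (x : R) : ∃ s : Fin N, π ∣ x - ((s : ℕ) : R) := by
  have hN : (0 : ℤ) < N := by have := h.hN; omega
  have h1 : π ∣ x - ((b.repr x ⟨0, h.hd⟩ : ℤ) : R) := by
    have e : x - ((b.repr x ⟨0, h.hd⟩ : ℤ) : R) =
        ∑ i ∈ univ.erase ⟨0, h.hd⟩, b.repr x i • b i := by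
      have e1 := b.sum_repr x
      rw [← Finset.add_sum_erase _ _ (mem_univ (⟨0, h.hd⟩ : Fin d)), h.b0, zsmul_eq_mul,
        mul_one] at e1
      linear_combination -e1
    rw [e]
    refine Finset.dvd_sum fun i hi => ?_
    rw [zsmul_eq_mul, h.hb]
    refine (dvd_pow_self π ?_).mul_left _
    intro h0
    exact (Finset.mem_erase.1 hi).1 (Fin.ext h0)
  set u := b.repr x ⟨0, h.hd⟩
  have h2 := Int.emod_nonneg u hN.ne'
  have h3 := Int.emod_lt_of_pos u hN
  refine ⟨⟨(u % N).toNat, by omega⟩, ?_⟩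
  have h4 : (((u % N).toNat : ℕ) : R) = ((u % N : ℤ) : R) := by
    rw [← Int.cast_natCast, Int.toNat_of_nonneg h2]
  simp only [h4]
  have h5 : x - ((u % N : ℤ) : R) = (x - (u : R)) + (N : R) * ((u / N : ℤ) : R) := by
    rw [Int.emod_def]; push_cast; ring
  rw [h5]
  exact h1.add (h.dvd_N.mul_right _)

theorem psum_succ (π : R) (a : ℕ → Fin N) (k : ℕ) :
    psum π a (k + 1) = psum π a k + ((a k : ℕ) : R) * π ^ k := by
  simp [psum, Finset.sum_range_succ]

theorem psum_congr {a c : ℕ → Fin N} {n : ℕ} (h : ∀ i < n, a i = c i) :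
    psum π a n = psum π c n :=
  Finset.sum_congr rfl fun i hi => by rw [h i (Finset.mem_range.1 hi)]

theorem Good.digits_eq [IsDomain R] (h : Good N b π) {a c : ℕ → Fin N} (n : ℕ)
    (hn : π ^ n ∣ psum π a n - psum π c n) : ∀ i < n, a i = c i := by
  induction n with
  | zero => intro i hi; omega
  | succ n ih =>
    rw [psum_succ, psum_succ] at hn
    have e : psum π a n + ((a n : ℕ) : R) * π ^ n - (psum π c n + ((c n : ℕ) : R) * π ^ n) =
        (psum π a n - psum π c n) + (((a n : ℕ) : R) - ((c n : ℕ) : R)) * π ^ n := by ring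
    rw [e] at hn
    have h1 := ih ((dvd_add_left (Dvd.intro_left _ rfl)).1 ((pow_dvd_pow π n.le_succ).trans hn))
    rw [psum_congr h1, sub_self, zero_add, pow_succ'] at hn
    have h2 := (mul_dvd_mul_iff_right (pow_ne_zero n h.ne_zero)).1 hn
    have h3 : (N : ℤ) ∣ ((a n : ℕ) : ℤ) - ((c n : ℕ) : ℤ) := h.dvd_int (by push_cast; exact h2)
    have h4 : ((a n : ℕ) : ℤ) - ((c n : ℕ) : ℤ) = 0 := by
      have := (a n).2
      have := (c n).2
      exact Int.eq_zero_of_abs_lt_dvd h3 (by rw [abs_lt]; constructor <;> omega)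
    intro i hi
    rcases Nat.lt_succ_iff_lt_or_eq.1 hi with h5 | h5
    · exact h1 i h5
    · subst h5; exact Fin.ext (by omega)

theorem Good.exists_quot (h : Good N b π) (f g : R) (hg : IsCoprime g π) :
    ∃ a : ℕ → Fin N, IsQuot π a f g := by
  obtain ⟨u, v, huv⟩ := id hg
  have step : ∀ x : R, ∃ p : Fin N × R, x - g * ((p.1 : ℕ) : R) = π * p.2 := by
    intro x
    obtain ⟨s, w, hw⟩ := h.digit (u * x)
    exact ⟨(s, v * x + g * w), by linear_combination g * hw - x * huv⟩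
  choose st hst using step
  let F : ℕ → R := fun k => Nat.rec f (fun _ x => (st x).2) k
  refine ⟨fun k => (st (F k)).1, hg, fun k => ?_⟩
  have key : ∀ k, g * psum π (fun k => (st (F k)).1) k - f = π ^ k * (-F k) := by
    intro k
    induction k with
    | zero => simp [psum, F]
    | succ k ih =>
      rw [psum_succ]
      have e : F (k + 1) = (st (F k)).2 := rfl
      rw [e]
      linear_combination ih - π ^ k * hst (F k)
  exact ⟨_, key k⟩

theorem Good.exists_ext [IsDomain R] (h : Good N b π) (a : ℕ → Fin N) (n : ℕ) (f g : R)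
    (hg : IsCoprime g π) (hfg : π ^ n ∣ g * psum π a n - f) :
    ∃ c : ℕ → Fin N, (∀ i < n, c i = a i) ∧ IsQuot π c f g := by
  obtain ⟨c, hc⟩ := h.exists_quot f g hg
  refine ⟨c, h.digits_eq n ?_, hc⟩
  have h1 := (hc.2 n).sub hfg
  rw [show g * psum π c n - f - (g * psum π a n - f) = g * (psum π c n - psum π a n) by ring] at h1
  exact (hg.pow_right (n := n)).symm.dvd_of_dvd_mul_left h1

def ext (hN : 2 ≤ N) {n : ℕ} (a : Fin n → Fin N) : ℕ → Fin N :=
  fun i => if h : i < n then a ⟨i, h⟩ else ⟨0, by omega⟩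

abbrev Qn (π : R) (n : ℕ) : Type := R ⧸ Ideal.span {π ^ n}

abbrev qmk (π : R) (n : ℕ) : R →+* Qn π n := Ideal.Quotient.mk _

theorem mk_eq {n : ℕ} {x y : R} : qmk π n x = qmk π n y ↔ π ^ n ∣ x - y := by
  rw [Ideal.Quotient.eq, Ideal.mem_span_singleton]

noncomputable def val (hN : 2 ≤ N) (π : R) {n : ℕ} (a : Fin n → Fin N) : Qn π n :=
  qmk π n (psum π (ext hN a) n)

theorem Good.val_bij [IsDomain R] (h : Good N b π) (n : ℕ) :
    Function.Bijective (val h.hN π (n := n)) := by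
  constructor
  · intro a c hac
    funext i
    have := h.digits_eq n (mk_eq.1 hac) i i.2
    simpa [ext] using this
  · intro y
    obtain ⟨x, rfl⟩ := Ideal.Quotient.mk_surjective y
    obtain ⟨c, hc⟩ := h.exists_quot x 1 isCoprime_one_left
    refine ⟨fun i => c i, mk_eq.2 ?_⟩
    have := hc.2 n
    rw [one_mul] at this
    rwa [psum_congr (c := c) fun i hi => by simp [ext, hi]]

end Pool.Agent.H194Z.PiAdic
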