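import Pool.Agent.H194Z.PiSums

set_option autoImplicit false
set_option linter.unusedSectionVars false

namespace Pool.Agent.H194Z.PiAdic

open Finset Module
open scoped ENNReal

variable {R : Type} [CommRing R] [IsDomain R] {d N : ℕ} {b : Basis (Fin d) ℤ R} {π : R}

theorem Good.finCx_bounds (h : Good N b π) (φ : R → ℝ≥0∞) (c : ℝ) (hc : 0 ≤ c)
    (hlo : ∀ x, ENNReal.ofReal (d * Real.logb N (nu b x)) ≤ φ x)
    (hhi : ∀ x (M : ℕ), 1 ≤ M → nu b x ≤ M → φ x ≤ ENNReal.ofReal (d * Real.logb N M + c))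
    (n : ℕ) [Fintype (Qn π n)] [DecidableEq (Qn π n)] (a : Fin n → Fin N) :
    finCx φ π n a ≠ ⊤ ∧
      d * Real.logb N (mm n b (val h.hN π a)) ≤ (finCx φ π n a).toReal ∧
      (finCx φ π n a).toReal ≤ d * Real.logb N (mm n b (val h.hN π a)) + c := by
  have hm := h.mm_pos n (val h.hN π a)
  have hNR : (1 : ℝ) < N := by exact_mod_cast h.hN
  have hup : finCx φ π n a ≤ ENNReal.ofReal (d * Real.logb N (mm n b (val h.hN π a)) + c) := by
    obtain ⟨⟨f, g⟩, h1, h2, h3⟩ := mm_spec n (b := b) (val h.hN π a)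
    obtain ⟨e, he1, he2⟩ := h.exists_ext (ext h.hN a) n f g h1 (mk_eq.1 (by rw [map_mul]; exact h2))
    refine iInf_le_of_le e (iInf_le_of_le (fun i => by rw [he1 i i.2]; simp [ext]) ?_)
    refine iInf_le_of_le f (iInf_le_of_le g (iInf_le_of_le he2 (max_le ?_ ?_)))
    · exact hhi _ _ hm (h3 ▸ le_max_left _ _)
    · exact hhi _ _ hm (h3 ▸ le_max_right _ _)
  have hne : finCx φ π n a ≠ ⊤ := ne_top_of_le_ne_top ENNReal.ofReal_ne_top hup
  have h0 : 0 ≤ Real.logb N (mm n b (val h.hN π a)) :=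
    Real.logb_nonneg hNR (by exact_mod_cast hm)
  refine ⟨hne, ?_, ENNReal.toReal_le_of_le_ofReal (by positivity) hup⟩
  refine (ENNReal.ofReal_le_iff_le_toReal hne).1 ?_
  refine le_iInf fun e => le_iInf fun he => le_iInf fun f => le_iInf fun g => le_iInf fun hq => ?_
  have h1 : qmk π n g * val h.hN π a = qmk π n f := by
    unfold val
    rw [← map_mul, mk_eq, psum_congr (c := e) fun i hi => by rw [he ⟨i, hi⟩]; simp [ext, hi]]
    exact hq.2 n
  have h2 := mm_le n (b := b) hq.1 h1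
  have key : ∀ x, mm n b (val h.hN π a) ≤ nu b x →
      ENNReal.ofReal (d * Real.logb N (mm n b (val h.hN π a))) ≤ φ x := fun x hx =>
    le_trans (ENNReal.ofReal_le_ofReal (mul_le_mul_of_nonneg_left
      (Real.logb_le_logb_of_le hNR (by exact_mod_cast hm) (by exact_mod_cast hx))
      (by positivity))) (hlo x)
  rcases le_max_iff.1 h2 with h3 | h3
  · exact le_max_of_le_left (key f h3)
  · exact le_max_of_le_right (key g h3)

theorem Good.main (h : Good N b π) (φ : R → ℝ≥0∞) (c : ℝ) (hc : 0 ≤ c)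
    (hlo : ∀ x, ENNReal.ofReal (d * Real.logb N (nu b x)) ≤ φ x)
    (hhi : ∀ x (M : ℕ), 1 ≤ M → nu b x ≤ M → φ x ≤ ENNReal.ofReal (d * Real.logb N M + c)) :
    ∃ C : ℝ, ∀ n : ℕ, avg φ π N n ≠ ⊤ ∧ |(avg φ π N n).toReal - n / 2| ≤ C := by
  classical
  have hN := h.hN
  have hNR : (1 : ℝ) < N := by exact_mod_cast hN
  have hL : 0 < Real.log N := Real.log_pos hNR
  have hdR : (0 : ℝ) < d := by exact_mod_cast h.hd
  refine ⟨max (d * (1 + 81 ^ d) / Real.log N)
    (c + d * (Real.log 9 / 2 + Real.log (3 * N) + CZ N b) / Real.log N), fun n => ?_⟩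
  have : Fintype (Qn π n) := Fintype.ofBijective _ (h.val_bij n)
  have hb := h.finCx_bounds φ c hc hlo hhi n
  have hNE : (N : ℝ≥0∞) ^ n ≠ 0 := pow_ne_zero _ (by exact_mod_cast (by omega : N ≠ 0))
  have hsum : ∑ a : Fin n → Fin N, finCx φ π n a ≠ ⊤ :=
    ENNReal.sum_ne_top.2 fun a _ => (hb a).1
  have hq : (0 : ℝ) < (N : ℝ) ^ n := pow_pos (by linarith) n
  have e : (avg φ π N n).toReal =
      (∑ a : Fin n → Fin N, (finCx φ π n a).toReal) / (N : ℝ) ^ n := by
    unfold avg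
    rw [ENNReal.toReal_div, ENNReal.toReal_sum fun a _ => (hb a).1]
    simp
  refine ⟨ENNReal.div_ne_top hsum hNE, ?_⟩
  obtain ⟨X, hX1, hX2⟩ := exists_X (N ^ n) d (pow_pos (by omega) n) h.hd
  have hY : (0 : ℝ) < ((2 * X + 1 : ℕ) : ℝ) := by positivity
  have hY1 : n * Real.log N ≤ 2 * d * Real.log ((2 * X + 1 : ℕ) : ℝ) := by
    have h1 : (N : ℝ) ^ n ≤ ((2 * X + 1 : ℕ) : ℝ) ^ (2 * d) := by exact_mod_cast hX1
    have h2 := Real.log_le_log hq h1
    rw [Real.log_pow, Real.log_pow] at h2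
    push_cast at h2 ⊢
    exact h2
  have hY2 : 2 * d * Real.log ((2 * X + 1 : ℕ) : ℝ) ≤ d * Real.log 9 + n * Real.log N := by
    have h1 : ((2 * X + 1 : ℕ) : ℝ) ^ (2 * d) ≤ 9 ^ d * (N : ℝ) ^ n := by exact_mod_cast hX2
    have h2 := Real.log_le_log (by positivity) h1
    rw [Real.log_mul (by positivity) hq.ne', Real.log_pow, Real.log_pow, Real.log_pow] at h2
    push_cast at h2 ⊢
    exact h2
  have s1 := h.sum_inv_mm n (2 * X + 1) (by omega) hX2
  have s2 : ∑ A : Qn π n, (ZZ b π n A X : ℝ) ≤ CZ N b * (N : ℝ) ^ n := by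
    exact_mod_cast h.sum_ZZ n X hX2
  rw [← (h.val_bij n).sum_comp] at s1 s2
  have hcard : (Fintype.card (Fin n → Fin N) : ℝ) = (N : ℝ) ^ n := by simp
  have lo : ∀ a : Fin n → Fin N, (n : ℝ) / 2 - d / Real.log N *
      (((2 * X + 1 : ℕ) : ℝ) / mm n b (val h.hN π a)) ≤ (finCx φ π n a).toReal := by
    intro a
    refine le_trans ?_ (hb a).2.1
    have hm : (0 : ℝ) < mm n b (val h.hN π a) := by exact_mod_cast h.mm_pos n (val h.hN π a)
    generalize ((mm n b (val h.hN π a) : ℕ) : ℝ) = m at hm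
    have h3 := Real.log_le_sub_one_of_pos (div_pos hY hm)
    rw [Real.log_div hY.ne' hm.ne'] at h3
    unfold Real.logb
    rw [← mul_div_assoc (d : ℝ) (Real.log m), le_div_iff₀ hL]
    have e1 : ((n : ℝ) / 2 - d / Real.log N * (((2 * X + 1 : ℕ) : ℝ) / m)) * Real.log N =
        n * Real.log N / 2 - d * (((2 * X + 1 : ℕ) : ℝ) / m) := by field_simp
    rw [e1]
    nlinarith
  have hi : ∀ a : Fin n → Fin N, (finCx φ π n a).toReal ≤
      (n : ℝ) / 2 + c + d * (Real.log 9 / 2 + Real.log (3 * N)) / Real.log N +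
        d / Real.log N * ZZ b π n (val h.hN π a) X := by
    intro a
    refine (hb a).2.2.trans ?_
    have hm : (0 : ℝ) < mm n b (val h.hN π a) := by exact_mod_cast h.mm_pos n (val h.hN π a)
    obtain ⟨f, g, a1, a2, a3⟩ := h.exists_adm n (val h.hN π a) X (by rw [h.card_Q n]; exact hX1)
    have a4 : (mm n b (val h.hN π a) : ℝ) ≤
        3 * N * (ZZ b π n (val h.hN π a) X * ((2 * X + 1 : ℕ) : ℝ)) := by
      exact_mod_cast (mm_le n a1 a2).trans a3
    have hZ : (0 : ℝ) < ZZ b π n (val h.hN π a) X := by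
      exact_mod_cast ZZ_pos b π n (val h.hN π a) X
    generalize ((mm n b (val h.hN π a) : ℕ) : ℝ) = m at hm a4
    generalize ((ZZ b π n (val h.hN π a) X : ℕ) : ℝ) = Z at hZ a4
    have a5 := Real.log_le_log hm a4
    rw [Real.log_mul (by positivity) (by positivity), Real.log_mul hZ.ne' hY.ne'] at a5
    have a6 := Real.log_le_sub_one_of_pos hZ
    have a7 : d * Real.logb N m ≤ (n : ℝ) / 2 +
        d * (Real.log 9 / 2 + Real.log (3 * N)) / Real.log N + d / Real.log N * Z := by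
      unfold Real.logb
      rw [← mul_div_assoc, div_le_iff₀ hL]
      have e1 : ((n : ℝ) / 2 + d * (Real.log 9 / 2 + Real.log (3 * N)) / Real.log N +
          d / Real.log N * Z) * Real.log N =
          n * Real.log N / 2 + d * (Real.log 9 / 2 + Real.log (3 * N)) + d * Z := by field_simp
      rw [e1]
      nlinarith
    linarith
  have lo' := Finset.sum_le_sum fun a (_ : a ∈ univ) => lo a
  have hi' := Finset.sum_le_sum fun a (_ : a ∈ univ) => hi a
  rw [Finset.sum_sub_distrib, ← Finset.mul_sum, Finset.sum_const, card_univ, nsmul_eq_mul,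
    hcard] at lo'
  rw [Finset.sum_add_distrib, ← Finset.mul_sum, Finset.sum_const, card_univ, nsmul_eq_mul,
    hcard] at hi'
  have t1 := mul_le_mul_of_nonneg_left s1 (div_pos hdR hL).le
  have t2 := mul_le_mul_of_nonneg_left s2 (div_pos hdR hL).le
  rw [e, abs_le]
  constructor
  · refine le_trans (neg_le_neg (le_max_left _ _)) ?_
    rw [le_sub_iff_add_le, le_div_iff₀ hq]
    have e1 : (-(d * (1 + 81 ^ d) / Real.log N) + (n : ℝ) / 2) * (N : ℝ) ^ n =
        (N : ℝ) ^ n * (n / 2) - d / Real.log N * ((1 + 81 ^ d) * (N : ℝ) ^ n) := by ring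
    rw [e1]
    linarith
  · refine le_trans ?_ (le_max_right _ _)
    rw [sub_le_iff_le_add, div_le_iff₀ hq]
    have e1 : (c + d * (Real.log 9 / 2 + Real.log (3 * N) + CZ N b) / Real.log N + (n : ℝ) / 2) *
        (N : ℝ) ^ n = (N : ℝ) ^ n * ((n : ℝ) / 2 + c +
          d * (Real.log 9 / 2 + Real.log (3 * N)) / Real.log N) +
          d / Real.log N * (CZ N b * (N : ℝ) ^ n) := by ring
    rw [e1]
    linarith

omit [IsDomain R] in
theorem exists_nu (b : Basis (Fin d) ℤ R) (hd : 0 < d) (x : R) :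
    ∃ i, (b.repr x i).natAbs = nu b x := by
  have : Nonempty (Fin d) := ⟨⟨0, hd⟩⟩
  obtain ⟨i, -, hi⟩ := Finset.exists_mem_eq_sup univ univ_nonempty fun i => (b.repr x i).natAbs
  exact ⟨i, hi.symm⟩

theorem abs_cast (z : ℤ) : |(z : ℝ)| = (z.natAbs : ℝ) := by
  rw [Nat.cast_natAbs, Int.cast_abs]

theorem caseII (hN : 2 ≤ N) (hd : 1 ≤ d) (hb : ∀ i, b i = π ^ (i : ℕ)) (hπ : π ^ d = N) :
    ∃ C : ℝ, ∀ n : ℕ, avg (sizeII N b) π N n ≠ ⊤ ∧
      |(avg (sizeII N b) π N n).toReal - n / 2| ≤ C := by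
  have h : Good N b π := ⟨hN, hd, hb, Or.inl hπ⟩
  have hNR : (1 : ℝ) < N := by exact_mod_cast hN
  refine h.main _ d (by positivity) (fun x => ?_) (fun x M hM hx => ?_)
  · obtain ⟨i, hi⟩ := exists_nu b hd x
    by_cases h0 : b.repr x i = 0
    · rw [← hi, h0]; simp
    · refine le_iSup₂_of_le (f := fun (i : Fin d) (_ : b.repr x i ≠ 0) =>
        ENNReal.ofReal (d * Real.logb N |(b.repr x i : ℝ)| + (i : ℕ))) i h0
        (ENNReal.ofReal_le_ofReal ?_)
      rw [abs_cast, hi]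
      have : (0 : ℝ) ≤ (i : ℕ) := by positivity
      linarith
  · refine iSup₂_le fun i h0 => ENNReal.ofReal_le_ofReal (add_le_add ?_ ?_)
    · refine mul_le_mul_of_nonneg_left (Real.logb_le_logb_of_le hNR ?_ ?_) (by positivity)
      · exact abs_pos.2 (by exact_mod_cast h0)
      · rw [abs_cast]
        exact_mod_cast (le_nu b x i).trans hx
    · exact_mod_cast i.2.le

theorem caseI {b : Basis (Fin 2) ℤ R} (hN : 2 ≤ N) (hb : ∀ i, b i = π ^ (i : ℕ))
    (hπ : π ^ 2 = -N) :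
    ∃ C : ℝ, ∀ n : ℕ, avg (sizeI N b) π N n ≠ ⊤ ∧
      |(avg (sizeI N b) π N n).toReal - n / 2| ≤ C := by
  have h : Good N b π := ⟨hN, two_pos, hb, Or.inr hπ⟩
  have hNR : (1 : ℝ) < N := by exact_mod_cast hN
  have hl : 0 ≤ Real.logb N (N + 1) := Real.logb_nonneg hNR (by linarith)
  refine h.main _ (Real.logb N (N + 1)) hl (fun x => ?_) (fun x M hM hx => ?_)
  · rcases Nat.eq_zero_or_pos (nu b x) with h0 | h0
    · rw [h0]; simp
    · refine ENNReal.ofReal_le_ofReal ?_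
      rw [← Real.logb_pow]
      refine Real.logb_le_logb_of_le hNR (by positivity) ?_
      obtain ⟨i, hi⟩ := exists_nu b two_pos x
      rw [← hi, ← abs_cast, sq_abs]
      have h1 := sq_nonneg (b.repr x 0 : ℝ)
      have h2 := sq_nonneg (b.repr x 1 : ℝ)
      fin_cases i
      · show (b.repr x 0 : ℝ) ^ 2 ≤ _
        nlinarith
      · show (b.repr x 1 : ℝ) ^ 2 ≤ _
        nlinarith
  · refine ENNReal.ofReal_le_ofReal ?_
    have hM' : (1 : ℝ) ≤ M := by exact_mod_cast hM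
    have hs : ∀ i, (b.repr x i : ℝ) ^ 2 ≤ (M : ℝ) ^ 2 := fun i => by
      rw [← sq_abs, abs_cast]
      exact pow_le_pow_left₀ (by positivity) (by exact_mod_cast (le_nu b x i).trans hx) 2
    rw [← Real.logb_pow, ← Real.logb_mul (by positivity) (by positivity)]
    have h1 := sq_nonneg (b.repr x 0 : ℝ)
    have h2 := sq_nonneg (b.repr x 1 : ℝ)
    rcases eq_or_lt_of_le (show 0 ≤ (b.repr x 0 : ℝ) ^ 2 + N * (b.repr x 1 : ℝ) ^ 2 by positivity)
      with h3 | h3
    · rw [← h3, Real.logb_zero]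
      exact Real.logb_nonneg hNR (by nlinarith)
    · refine Real.logb_le_logb_of_le hNR h3 ?_
      have := hs 0
      have := hs 1
      nlinarith

end Pool.Agent.H194Z.PiAdic
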