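import Pool.Agent.H194Z.PiDefs

set_option autoImplicit false

namespace Pool.Agent.H194Z.PiAdic

open Finset Module

variable {R : Type} [CommRing R] {d : ℕ} (b : Basis (Fin d) ℤ R)

/-- sup norm of the coordinates -/
noncomputable def nu (x : R) : ℕ := univ.sup fun i => (b.repr x i).natAbs

theorem le_nu (x : R) (i : Fin d) : (b.repr x i).natAbs ≤ nu b x :=
  Finset.le_sup (f := fun i => (b.repr x i).natAbs) (mem_univ i)

theorem nu_le {x : R} {k : ℕ} (h : ∀ i, (b.repr x i).natAbs ≤ k) : nu b x ≤ k :=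
  Finset.sup_le fun i _ => h i

theorem nu_zero : nu b 0 = 0 := Nat.le_zero.1 (nu_le b fun i => by simp)

theorem nu_add (x y : R) : nu b (x + y) ≤ nu b x + nu b y := nu_le b fun i => by
  have h1 := le_nu b x i
  have h2 := le_nu b y i
  simp only [map_add, Finsupp.add_apply]
  omega

theorem nu_neg (x : R) : nu b (-x) = nu b x := by
  simp [nu]

theorem nu_sub (x y : R) : nu b (x - y) ≤ nu b x + nu b y := by
  rw [sub_eq_add_neg]
  exact (nu_add b _ _).trans (by rw [nu_neg])

theorem nu_smul_le (k : ℤ) (x : R) : nu b (k • x) ≤ k.natAbs * nu b x := nu_le b fun i => by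
  simp only [map_smul, Finsupp.smul_apply, smul_eq_mul, Int.natAbs_mul]
  exact Nat.mul_le_mul_left _ (le_nu b x i)

theorem le_nu_smul (k : ℤ) (x : R) : k.natAbs * nu b x ≤ nu b (k • x) := by
  rcases Nat.eq_zero_or_pos k.natAbs with h | h
  · simp [h]
  · rw [mul_comm, ← Nat.le_div_iff_mul_le h]
    refine nu_le b fun i => ?_
    rw [Nat.le_div_iff_mul_le h]
    have := le_nu b (k • x) i
    simp only [map_smul, Finsupp.smul_apply, smul_eq_mul, Int.natAbs_mul] at this
    rwa [mul_comm]

theorem nu_pos {x : R} (h : x ≠ 0) : 1 ≤ nu b x := by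
  by_contra hc
  apply h
  apply b.repr.injective
  ext i
  have := le_nu b x i
  simp only [map_zero, Finsupp.coe_zero, Pi.zero_apply]
  omega

theorem nu_sum {ι : Type} (s : Finset ι) (f : ι → R) :
    nu b (∑ i ∈ s, f i) ≤ ∑ i ∈ s, nu b (f i) := by
  classical
  induction s using Finset.induction_on with
  | empty => simp [nu_zero]
  | insert a s ha ih =>
    rw [Finset.sum_insert ha, Finset.sum_insert ha]
    exact (nu_add b _ _).trans (by omega)

theorem nu_basis (i : Fin d) : nu b (b i) ≤ 1 := nu_le b fun j => by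
  rw [b.repr_self, Finsupp.single_apply]
  split_ifs <;> simp

/-- multiplication constant -/
noncomputable def C0 : ℕ := ∑ i, ∑ j, nu b (b i * b j)

theorem nu_mul (x y : R) : nu b (x * y) ≤ C0 b * nu b x * nu b y := by
  conv_lhs => rw [← b.sum_repr x, ← b.sum_repr y, Finset.sum_mul_sum]
  refine (nu_sum b _ _).trans ?_
  unfold C0
  rw [Finset.sum_mul, Finset.sum_mul]
  refine Finset.sum_le_sum fun i _ => (nu_sum b _ _).trans ?_
  rw [Finset.sum_mul, Finset.sum_mul]
  refine Finset.sum_le_sum fun j _ => ?_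
  rw [smul_mul_smul_comm]
  refine (nu_smul_le b _ _).trans ?_
  rw [Int.natAbs_mul]
  calc _ ≤ nu b x * nu b y * nu b (b i * b j) :=
        Nat.mul_le_mul_right _ (Nat.mul_le_mul (le_nu b x i) (le_nu b y j))
    _ = _ := by ring

/-- the box of radius `X` -/
noncomputable def box (X : ℕ) : Finset R :=
  (Fintype.piFinset fun _ : Fin d => Finset.Icc (-(X : ℤ)) X).map
    b.equivFun.symm.toEquiv.toEmbedding

theorem mem_box {X : ℕ} {x : R} : x ∈ box b X ↔ nu b x ≤ X := by
  unfold box
  rw [Finset.mem_map_equiv, Fintype.mem_piFinset]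
  constructor
  · intro h
    refine nu_le b fun i => ?_
    have := h i
    simp only [LinearEquiv.coe_symm_toEquiv, LinearEquiv.symm_symm, Basis.equivFun_apply,
      mem_Icc] at this
    omega
  · intro h i
    have := (le_nu b x i).trans h
    simp only [LinearEquiv.coe_symm_toEquiv, LinearEquiv.symm_symm, Basis.equivFun_apply,
      mem_Icc]
    omega

theorem card_box (X : ℕ) : (box b X).card = (2 * X + 1) ^ d := by
  unfold box
  rw [Finset.card_map, Fintype.card_piFinset]
  simp only [Int.card_Icc, prod_const, card_univ, Fintype.card_fin]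
  congr 1
  omega

theorem div_rem (x : R) (M : ℕ) (hM : 0 < M) : ∃ z r : R, x = (M : ℤ) • z + r ∧ nu b r ≤ M := by
  refine ⟨b.equivFun.symm fun i => b.repr x i / M, b.equivFun.symm fun i => b.repr x i % M, ?_, ?_⟩
  · rw [← map_smul, ← map_add]
    apply b.equivFun.injective
    rw [LinearEquiv.apply_symm_apply]
    funext i
    simp only [Basis.equivFun_apply, Pi.add_apply, Pi.smul_apply, smul_eq_mul]
    exact (Int.mul_ediv_add_emod _ _).symm
  · refine nu_le b fun i => ?_
    rw [← Basis.equivFun_apply, LinearEquiv.apply_symm_apply]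
    have hM' : (0 : ℤ) < M := by exact_mod_cast hM
    have h1 := Int.emod_nonneg (b.repr x i) hM'.ne'
    have h2 := Int.emod_lt_of_pos (b.repr x i) hM'
    omega

theorem small_rep [IsDomain R] {g : R} (hg : g ≠ 0) (x : R) :
    ∃ t r : R, x = g * t + r ∧ nu b r ≤ C0 b * nu b g := by
  have : Module.Finite ℤ R := Module.Finite.of_basis b
  have : Module.Free ℤ R := Module.Free.of_basis b
  have hI : Ideal.span {g} ≠ ⊥ := by simpa using hg
  have : Finite (R ⧸ Ideal.span {g}) := Ideal.finiteQuotientOfFreeOfNeBot _ hI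
  set M := Nat.card (R ⧸ Ideal.span {g}) with hM
  have hM0 : 0 < M := Nat.card_pos
  have h1 : (M : ℤ) • x ∈ Ideal.span {g} := by
    rw [← Ideal.Quotient.eq_zero_iff_mem, map_zsmul, natCast_zsmul]
    exact card_nsmul_eq_zero'
  obtain ⟨κ, hκ⟩ := Ideal.mem_span_singleton'.1 h1
  obtain ⟨z, r, hz, hr⟩ := div_rem b κ M hM0
  refine ⟨z, x - g * z, by ring, ?_⟩
  have h2 : (M : ℤ) • (x - g * z) = g * r := by
    rw [smul_sub, ← hκ, hz]
    simp only [zsmul_eq_mul]
    ring
  have h3 := le_nu_smul b (M : ℤ) (x - g * z)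
  rw [h2, Int.natAbs_natCast] at h3
  have h4 := nu_mul b g r
  have h5 : C0 b * nu b g * nu b r ≤ M * (C0 b * nu b g) := by
    rw [mul_comm M]
    exact Nat.mul_le_mul_left _ hr
  exact Nat.le_of_mul_le_mul_left (h3.trans (h4.trans h5)) hM0

end Pool.Agent.H194Z.PiAdic
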