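import Pool.Agent.H194Z.PiCount
import Pool.Agent.H194Z.AdicLat

set_option autoImplicit false
set_option linter.unusedSectionVars false

namespace Pool.Agent.H194Z.PiAdic

open Finset Module

variable {R : Type} [CommRing R] [IsDomain R] {d N : ℕ} {b : Basis (Fin d) ℤ R} {π : R} (n : ℕ)

variable [Fintype (Qn π n)] [DecidableEq (Qn π n)]

theorem Good.card_Q (h : Good N b π) : Fintype.card (Qn π n) = N ^ n := by
  rw [← Fintype.card_of_bijective (h.val_bij n)]
  simp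

theorem Good.zero_count (h : Good N b π) (X : ℕ) (hX : (2 * X + 1) ^ (2 * d) ≤ 9 ^ d * N ^ n) :
    ((box b (2 * X)).filter fun f => 0 = qmk π n f).card ≤ (2 * (3 * N) + 1) ^ d := by
  classical
  have hN := h.hN
  have hd := h.hd
  set k := n / d with hk
  have h1 : 2 * X + 1 ≤ 3 * N ^ (k + 1) := by
    refine (Nat.pow_le_pow_iff_left (n := 2 * d) (by omega)).1 (hX.trans ?_)
    rw [mul_pow, pow_mul, ← pow_mul N]
    refine Nat.mul_le_mul (by norm_num) (Nat.pow_le_pow_right (by omega) ?_)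
    have := Nat.lt_mul_div_succ n hd
    nlinarith
  rw [← card_box b]
  refine le_trans (Finset.card_le_card ?_)
    (Finset.card_image_le (f := fun y : R => ((N ^ k : ℕ) : ℤ) • y))
  intro f hf
  rw [mem_filter, mem_box] at hf
  have h2 : π ^ n ∣ f := by
    have := mk_eq.1 (show qmk π n f = qmk π n 0 by rw [← hf.2, map_zero])
    rwa [sub_zero] at this
  have h3 : (N : R) ^ k ∣ f := by
    refine (pow_dvd_pow_of_dvd h.dvd_pow k).trans (Dvd.dvd.trans ?_ h2)
    rw [← pow_mul]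
    exact pow_dvd_pow _ (Nat.mul_div_le n d)
  obtain ⟨y, hy⟩ := h3
  have h4 : ((N ^ k : ℕ) : ℤ) • y = f := by rw [hy]; simp
  refine Finset.mem_image.2 ⟨y, (mem_box b).2 ?_, h4⟩
  have h5 := le_nu_smul b ((N ^ k : ℕ) : ℤ) y
  rw [h4, Int.natAbs_natCast] at h5
  have h6 : N ^ k * nu b y ≤ N ^ k * (3 * N) := by
    rw [pow_succ] at h1
    nlinarith
  exact Nat.le_of_mul_le_mul_left h6 (pow_pos (by omega) _)

noncomputable def CZ (N : ℕ) (b : Basis (Fin d) ℤ R) : ℕ :=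
  (2 * (3 * N) + 1) ^ d + (4 + 4 * C0 b) ^ d * 9 ^ d

theorem Good.sum_ZZ (h : Good N b π) (X : ℕ) (hX : (2 * X + 1) ^ (2 * d) ≤ 9 ^ d * N ^ n) :
    ∑ A : Qn π n, ZZ b π n A X ≤ CZ N b * N ^ n := by
  classical
  have e : ∑ A : Qn π n, ZZ b π n A X = ∑ g ∈ box b (2 * X),
      ((univ ×ˢ box b (2 * X)).filter fun p : Qn π n × R =>
        qmk π n g * p.1 = qmk π n p.2).card := by
    simp only [ZZ, Finset.card_filter, Finset.sum_product]
    symm
    rw [Finset.sum_comm]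
    refine Finset.sum_congr rfl fun A _ => ?_
    rw [Finset.sum_comm]
  have h0 : (0 : R) ∈ box b (2 * X) := by simp [mem_box, nu_zero]
  rw [e, ← Finset.add_sum_erase _ _ h0]
  have h1 : ((univ ×ˢ box b (2 * X)).filter fun p : Qn π n × R =>
      qmk π n 0 * p.1 = qmk π n p.2).card ≤ N ^ n * (2 * (3 * N) + 1) ^ d := by
    simp only [map_zero, zero_mul]
    rw [Finset.filter_product_right (q := fun f => 0 = qmk π n f), Finset.card_product,
      Finset.card_univ, h.card_Q n]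
    exact Nat.mul_le_mul_left _ (h.zero_count n X hX)
  have h2 : ∑ g ∈ (box b (2 * X)).erase 0, ((univ ×ˢ box b (2 * X)).filter
      fun p : Qn π n × R => qmk π n g * p.1 = qmk π n p.2).card ≤
      (2 * (2 * X) + 1) ^ d * (2 * (2 * X + C0 b * (2 * X)) + 1) ^ d := by
    refine (Finset.sum_le_card_nsmul _ _ ((2 * (2 * X + C0 b * (2 * X)) + 1) ^ d) ?_).trans ?_
    · intro g hg
      rw [mem_erase, mem_box] at hg
      refine (count_pairs b π n hg.1 _).trans ?_
      rw [card_box]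
      refine Nat.pow_le_pow_left ?_ _
      have := Nat.mul_le_mul_left (C0 b) hg.2
      omega
    · rw [smul_eq_mul]
      exact Nat.mul_le_mul_right _ (Finset.card_erase_le.trans (card_box b _).le)
  have h3 : (2 * (2 * X) + 1) ^ d * (2 * (2 * X + C0 b * (2 * X)) + 1) ^ d ≤
      (4 + 4 * C0 b) ^ d * (2 * X + 1) ^ (2 * d) := by
    rw [pow_mul, ← mul_pow, ← mul_pow]
    refine Nat.pow_le_pow_left ?_ _
    nlinarith [Nat.zero_le (C0 b), Nat.zero_le X, Nat.zero_le (C0 b * X)]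
  have h4 := Nat.mul_le_mul_left ((4 + 4 * C0 b) ^ d) hX
  unfold CZ
  nlinarith

theorem adm_ex (b : Basis (Fin d) ℤ R) (A : Qn π n) : ∃ k, ∃ p : R × R, IsCoprime p.2 π ∧
    qmk π n p.2 * A = qmk π n p.1 ∧ max (nu b p.1) (nu b p.2) = k := by
  obtain ⟨x, rfl⟩ := Ideal.Quotient.mk_surjective A
  exact ⟨_, (x, 1), isCoprime_one_left, by simp, rfl⟩

open Classical in
noncomputable def mm (b : Basis (Fin d) ℤ R) (A : Qn π n) : ℕ := Nat.find (adm_ex n b A)

theorem mm_spec (A : Qn π n) : ∃ p : R × R, IsCoprime p.2 π ∧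
    qmk π n p.2 * A = qmk π n p.1 ∧ max (nu b p.1) (nu b p.2) = mm n b A := by
  classical
  exact Nat.find_spec (adm_ex n b A)

theorem mm_le {A : Qn π n} {f g : R} (hg : IsCoprime g π) (h : qmk π n g * A = qmk π n f) :
    mm n b A ≤ max (nu b f) (nu b g) := by
  classical
  exact Nat.find_min' (adm_ex n b A) ⟨(f, g), hg, h, rfl⟩

theorem Good.coprime_ne (h : Good N b π) {g : R} (hg : IsCoprime g π) : g ≠ 0 := by
  rintro rfl
  have h1 : π ∣ ((1 : ℤ) : R) := by
    rw [Int.cast_one]; exact (isCoprime_zero_left.1 hg).dvd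
  have := Int.le_of_dvd one_pos (h.dvd_int h1)
  have := h.hN
  omega

theorem Good.mm_pos (h : Good N b π) (A : Qn π n) : 1 ≤ mm n b A := by
  obtain ⟨p, h1, -, h3⟩ := mm_spec n (b := b) A
  have := nu_pos b (h.coprime_ne h1)
  omega

theorem count_mm (j : ℕ) :
    (univ.filter fun A : Qn π n => mm n b A ≤ j).card ≤ (2 * j + 1) ^ (2 * d) := by
  choose P h1 h2 h3 using mm_spec n (b := b) (π := π)
  rw [two_mul d, pow_add, ← card_box b, ← Finset.card_product]
  refine Finset.card_le_card_of_injOn P ?_ ?_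
  · intro A hA
    simp only [coe_filter, mem_univ, true_and, Set.mem_ofPred_eq, coe_product, Set.mem_prod,
      mem_coe, mem_box] at hA ⊢
    have := h3 A
    omega
  · intro A _ B _ hAB
    obtain ⟨u, v, huv⟩ := (h1 A).pow_right (n := n)
    have e1 := congrArg (qmk π n) huv
    have e2 : qmk π n (π ^ n) = 0 :=
      Ideal.Quotient.eq_zero_iff_mem.2 (Ideal.mem_span_singleton_self _)
    rw [map_add, map_mul, map_mul, e2, mul_zero, add_zero, map_one] at e1
    have e3 := h2 A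
    have e4 := h2 B
    rw [← hAB] at e4
    linear_combination (B - A) * e1 + qmk π n u * (e3 - e4)

theorem Good.sum_inv_mm (h : Good N b π) (Y : ℕ) (hY0 : 1 ≤ Y) (hY : Y ^ (2 * d) ≤ 9 ^ d * N ^ n) :
    ∑ A : Qn π n, (Y : ℝ) / mm n b A ≤ (1 + 81 ^ d) * (N : ℝ) ^ n := by
  have hYR : (0 : ℝ) < Y := by exact_mod_cast hY0
  have h1 : ∑ A : Qn π n, (1 : ℝ) / mm n b A ≤ ∑ A : Qn π n,
      (1 / Y + ∑ j ∈ range Y, if mm n b A ≤ j then (1 : ℝ) / (j * (j + 1)) else 0) := by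
    refine Finset.sum_le_sum fun A _ => ?_
    rcases le_total (mm n b A) Y with h2 | h2
    · exact Adic.inv_le_tele _ _ (h.mm_pos n A) h2
    · have h3 : (1 : ℝ) / mm n b A ≤ 1 / Y :=
        one_div_le_one_div_of_le hYR (by exact_mod_cast h2)
      have h4 : 0 ≤ ∑ j ∈ range Y, if mm n b A ≤ j then (1 : ℝ) / (j * (j + 1)) else 0 :=
        Finset.sum_nonneg fun j _ => by split_ifs <;> positivity
      linarith
  rw [Finset.sum_add_distrib, Finset.sum_comm] at h1
  obtain ⟨e, he⟩ : ∃ e, 2 * d = e + 2 := ⟨2 * d - 2, by have := h.hd; omega⟩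
  have h2 : ∑ j ∈ range Y, ∑ A : Qn π n,
      (if mm n b A ≤ j then (1 : ℝ) / (j * (j + 1)) else 0) ≤
      ∑ _j ∈ range Y, (9 : ℝ) ^ d * (Y : ℝ) ^ e := by
    refine Finset.sum_le_sum fun j hj => ?_
    rw [← Finset.sum_filter, Finset.sum_const, nsmul_eq_mul]
    rcases Nat.eq_zero_or_pos j with h0 | h0
    · subst h0; simp
    · have h3 : (univ.filter fun A : Qn π n => mm n b A ≤ j).card ≤
          9 ^ d * Y ^ e * (j * (j + 1)) := by
        refine (count_mm n j).trans ((Nat.pow_le_pow_left (show 2 * j + 1 ≤ 3 * j by omega) _).trans ?_)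
        rw [mul_pow, pow_mul, he, pow_add, mul_assoc]
        refine Nat.mul_le_mul (by norm_num) (Nat.mul_le_mul
          (Nat.pow_le_pow_left (mem_range.1 hj).le _) (by nlinarith))
      have h4 : (0 : ℝ) < j := by exact_mod_cast h0
      rw [mul_one_div, div_le_iff₀ (by positivity)]
      exact_mod_cast h3
  simp only [Finset.sum_const, card_univ, nsmul_eq_mul, card_range, h.card_Q n] at h1 h2
  have h5 : ∑ A : Qn π n, (Y : ℝ) / mm n b A = Y * ∑ A : Qn π n, (1 : ℝ) / mm n b A := by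
    rw [Finset.mul_sum]
    exact Finset.sum_congr rfl fun A _ => by ring
  have h6 : (Y : ℝ) ^ (e + 2) ≤ 9 ^ d * (N : ℝ) ^ n := by rw [← he]; exact_mod_cast hY
  have h7 := mul_le_mul_of_nonneg_left (h1.trans (add_le_add le_rfl h2)) hYR.le
  have h8 : (Y : ℝ) * (((N ^ n : ℕ) : ℝ) * (1 / Y) + Y * (9 ^ d * (Y : ℝ) ^ e)) =
      (N : ℝ) ^ n + 9 ^ d * (Y : ℝ) ^ (e + 2) := by
    push_cast; field_simp; ring
  have h9 : (9 : ℝ) ^ d * (Y : ℝ) ^ (e + 2) ≤ 9 ^ d * (9 ^ d * (N : ℝ) ^ n) :=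
    mul_le_mul_of_nonneg_left h6 (by positivity)
  have h10 : (9 : ℝ) ^ d * (9 ^ d * (N : ℝ) ^ n) = 81 ^ d * (N : ℝ) ^ n := by
    rw [← mul_assoc, ← mul_pow]; norm_num
  rw [h5]
  linarith

theorem exists_X (q d : ℕ) (hq : 0 < q) (hd : 0 < d) :
    ∃ X : ℕ, q ≤ (2 * X + 1) ^ (2 * d) ∧ (2 * X + 1) ^ (2 * d) ≤ 9 ^ d * q := by
  classical
  have hex : ∃ X : ℕ, q ≤ (2 * X + 1) ^ (2 * d) :=
    ⟨q, le_trans (by omega) (Nat.le_self_pow (by omega) _)⟩
  refine ⟨Nat.find hex, Nat.find_spec hex, ?_⟩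
  rcases Nat.eq_zero_or_pos (Nat.find hex) with h0 | h0
  · rw [h0]
    simp only [mul_zero, zero_add, one_pow]
    exact Nat.mul_pos (by positivity) hq
  · have h1 := Nat.find_min hex (show Nat.find hex - 1 < Nat.find hex by omega)
    have h2 : (2 * Nat.find hex + 1) ^ (2 * d) ≤ (3 * (2 * (Nat.find hex - 1) + 1)) ^ (2 * d) :=
      Nat.pow_le_pow_left (by omega) _
    refine h2.trans ?_
    rw [mul_pow, pow_mul 3]
    exact Nat.mul_le_mul (by norm_num) (by omega)

end Pool.Agent.H194Z.PiAdic
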