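import Mathlib
import Pool.Agent.Helper809.SpiralG

/-! Dilating a sense-preserving univalent harmonic map gives quasiconformal ones. -/

namespace Pool.Agent.H194Z.QcDilate

open Metric Set

/-- The dilation `z ↦ F (r z) / r`. -/
noncomputable def dil (F : ℂ → ℂ) (r : ℝ) : ℂ → ℂ := fun z => F ((r : ℂ) * z) / (r : ℂ)

lemma mul_mem {r : ℝ} (h0 : 0 < r) (h1 : r < 1) {z : ℂ} (hz : z ∈ ball (0 : ℂ) 1) :
    (r : ℂ) * z ∈ closedBall (0 : ℂ) r := by
  simp only [mem_ball, dist_zero_right, mem_closedBall, norm_mul, Complex.norm_real,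
    Real.norm_eq_abs, abs_of_pos h0] at hz ⊢
  nlinarith [norm_nonneg z]

lemma mul_mem' {r : ℝ} (h0 : 0 < r) (h1 : r < 1) {z : ℂ} (hz : z ∈ ball (0 : ℂ) 1) :
    (r : ℂ) * z ∈ ball (0 : ℂ) 1 :=
  closedBall_subset_ball h1 (mul_mem h0 h1 hz)

lemma hasDerivAt_dil {F : ℂ → ℂ} (hF : DifferentiableOn ℂ F (ball (0 : ℂ) 1)) {r : ℝ}
    (h0 : 0 < r) (h1 : r < 1) {z : ℂ} (hz : z ∈ ball (0 : ℂ) 1) :
    HasDerivAt (dil F r) (deriv F ((r : ℂ) * z)) z := by
  have hr : (r : ℂ) ≠ 0 := by exact_mod_cast h0.ne'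
  have h2 : HasDerivAt F (deriv F ((r : ℂ) * z)) ((r : ℂ) * z) :=
    (hF.differentiableAt (isOpen_ball.mem_nhds (mul_mem' h0 h1 hz))).hasDerivAt
  have h3 : HasDerivAt (fun w : ℂ => (r : ℂ) * w) (r : ℂ) z := by
    simpa using (hasDerivAt_id z).const_mul (r : ℂ)
  have h4 := (h2.comp z h3).div_const (r : ℂ)
  have h5 : deriv F ((r : ℂ) * z) * (r : ℂ) / (r : ℂ) = deriv F ((r : ℂ) * z) := by
    field_simp
  rw [h5] at h4
  exact h4

lemma dil_diff {F : ℂ → ℂ} (hF : DifferentiableOn ℂ F (ball (0 : ℂ) 1)) {r : ℝ}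
    (h0 : 0 < r) (h1 : r < 1) : DifferentiableOn ℂ (dil F r) (ball (0 : ℂ) 1) :=
  fun _ hz => (hasDerivAt_dil hF h0 h1 hz).differentiableAt.differentiableWithinAt

lemma iter_dil {F : ℂ → ℂ} (hF : DifferentiableOn ℂ F (ball (0 : ℂ) 1)) {r : ℝ}
    (h0 : 0 < r) (h1 : r < 1) (n : ℕ) : ∀ z ∈ ball (0 : ℂ) 1,
    iteratedDeriv n (dil F r) z = (r : ℂ) ^ n / r * iteratedDeriv n F ((r : ℂ) * z) := by
  have hr : (r : ℂ) ≠ 0 := by exact_mod_cast h0.ne'
  induction n with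
  | zero => intro z _; simp [dil]; field_simp
  | succ n ih =>
    intro z hz
    have hFn : DifferentiableOn ℂ (iteratedDeriv n F) (ball (0 : ℂ) 1) := by
      have := (hF.analyticOnNhd isOpen_ball).iterated_deriv n
      have e : iteratedDeriv n F = deriv^[n] F := by
        exact iteratedDeriv_eq_iterate
      rw [e]; exact this.differentiableOn
    have hev : iteratedDeriv n (dil F r) =ᶠ[nhds z]
        fun w => (r : ℂ) ^ n * dil (iteratedDeriv n F) r w := by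
      filter_upwards [isOpen_ball.mem_nhds hz] with w hw
      rw [ih w hw]; unfold dil; field_simp
    rw [iteratedDeriv_succ, hev.deriv_eq,
      ((hasDerivAt_dil hFn h0 h1 hz).const_mul ((r : ℂ) ^ n)).deriv, iteratedDeriv_succ]
    field_simp
    ring

lemma norm_coeff_dil {F : ℂ → ℂ} (hF : DifferentiableOn ℂ F (ball (0 : ℂ) 1)) {r : ℝ}
    (h0 : 0 < r) (h1 : r < 1) (n : ℕ) :
    ‖iteratedDeriv n (dil F r) 0 / (n.factorial : ℂ)‖ =
      r ^ n / r * ‖iteratedDeriv n F 0 / (n.factorial : ℂ)‖ := by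
  rw [iter_dil hF h0 h1 n 0 (by simp), mul_zero, mul_div_assoc, norm_mul]
  simp [abs_of_pos h0]

/-- On a smaller closed disk the dilatation is bounded by a constant `k < 1`. -/
lemma exists_k {h g : ℂ → ℂ} (hh : DifferentiableOn ℂ h (ball (0 : ℂ) 1))
    (hg : DifferentiableOn ℂ g (ball (0 : ℂ) 1))
    (hd : ∀ z ∈ ball (0 : ℂ) 1, ‖deriv g z‖ < ‖deriv h z‖) {r : ℝ} (h0 : 0 < r) (h1 : r < 1) :
    ∃ k : ℝ, 0 ≤ k ∧ k < 1 ∧ ∀ z ∈ closedBall (0 : ℂ) r, ‖deriv g z‖ ≤ k * ‖deriv h z‖ := by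
  have hsub : closedBall (0 : ℂ) r ⊆ ball (0 : ℂ) 1 := closedBall_subset_ball h1
  have ch : ContinuousOn (deriv h) (closedBall (0 : ℂ) r) :=
    ((hh.analyticOnNhd isOpen_ball).deriv.continuousOn).mono hsub
  have cg : ContinuousOn (deriv g) (closedBall (0 : ℂ) r) :=
    ((hg.analyticOnNhd isOpen_ball).deriv.continuousOn).mono hsub
  have hpos : ∀ z ∈ closedBall (0 : ℂ) r, 0 < ‖deriv h z‖ :=
    fun z hz => lt_of_le_of_lt (norm_nonneg _) (hd z (hsub hz))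
  have cq : ContinuousOn (fun z => ‖deriv g z‖ / ‖deriv h z‖) (closedBall (0 : ℂ) r) :=
    cg.norm.div ch.norm (fun z hz => (hpos z hz).ne')
  obtain ⟨z0, hz0, hmax⟩ := (isCompact_closedBall (0 : ℂ) r).exists_isMaxOn
    ⟨0, mem_closedBall_self h0.le⟩ cq
  refine ⟨‖deriv g z0‖ / ‖deriv h z0‖, by positivity, ?_, fun z hz => ?_⟩
  · rw [div_lt_one (hpos z0 hz0)]; exact hd z0 (hsub hz0)
  · have := hmax hz
    simp only [mem_setOf_eq] at this
    rwa [div_le_iff₀ (hpos z hz)] at this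

/-- If the difference bound holds for all quasiconformal maps it holds for all maps. -/
theorem bound_of_qc
    (H : ∀ k : ℝ, 0 ≤ k → k < 1 → ∀ h g : ℂ → ℂ,
      DifferentiableOn ℂ h (ball (0 : ℂ) 1) → DifferentiableOn ℂ g (ball (0 : ℂ) 1) →
      h 0 = 0 → deriv h 0 = 1 → g 0 = 0 → deriv g 0 = 0 →
      InjOn (fun z => h z + starRingEnd ℂ (g z)) (ball (0 : ℂ) 1) →
      (∀ z ∈ ball (0 : ℂ) 1, ‖deriv g z‖ ≤ k * ‖deriv h z‖) →
      ∀ n : ℕ, 2 ≤ n →
        |‖iteratedDeriv n h 0 / (n.factorial : ℂ)‖ - ‖iteratedDeriv n g 0 / (n.factorial : ℂ)‖|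
          ≤ (n : ℝ))
    {h g : ℂ → ℂ} (hh : DifferentiableOn ℂ h (ball (0 : ℂ) 1))
    (hg : DifferentiableOn ℂ g (ball (0 : ℂ) 1))
    (h0 : h 0 = 0) (h1 : deriv h 0 = 1) (g0 : g 0 = 0) (g1 : deriv g 0 = 0)
    (hinj : InjOn (fun z => h z + starRingEnd ℂ (g z)) (ball (0 : ℂ) 1))
    (hd : ∀ z ∈ ball (0 : ℂ) 1, ‖deriv g z‖ < ‖deriv h z‖) (n : ℕ) (hn : 2 ≤ n) :
    |‖iteratedDeriv n h 0 / (n.factorial : ℂ)‖ - ‖iteratedDeriv n g 0 / (n.factorial : ℂ)‖|
      ≤ (n : ℝ) := by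
  set X := |‖iteratedDeriv n h 0 / (n.factorial : ℂ)‖ -
    ‖iteratedDeriv n g 0 / (n.factorial : ℂ)‖| with hX
  have key : ∀ r : ℝ, 0 < r → r < 1 → r ^ n / r * X ≤ (n : ℝ) := by
    intro r r0 r1
    have hr : (r : ℂ) ≠ 0 := by exact_mod_cast r0.ne'
    obtain ⟨k, k0, k1, hk⟩ := exists_k hh hg hd r0 r1
    have z0 : (0 : ℂ) ∈ ball (0 : ℂ) 1 := by simp
    have := H k k0 k1 (dil h r) (dil g r) (dil_diff hh r0 r1) (dil_diff hg r0 r1)
      (by simp [dil, h0]) (by rw [(hasDerivAt_dil hh r0 r1 z0).deriv]; simpa using h1)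
      (by simp [dil, g0]) (by rw [(hasDerivAt_dil hg r0 r1 z0).deriv]; simpa using g1)
      (by
        intro z hz w hw hzw
        have e : h (r * z) + starRingEnd ℂ (g (r * z)) =
            h (r * w) + starRingEnd ℂ (g (r * w)) := by
          simp only [dil, map_div₀, Complex.conj_ofReal] at hzw
          rw [← add_div, ← add_div] at hzw
          exact (div_left_inj' hr).mp hzw
        exact mul_left_cancel₀ hr (hinj (mul_mem' r0 r1 hz) (mul_mem' r0 r1 hw) e))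
      (by
        intro z hz
        rw [(hasDerivAt_dil hh r0 r1 hz).deriv, (hasDerivAt_dil hg r0 r1 hz).deriv]
        exact hk _ (mul_mem r0 r1 hz)) n hn
    rw [norm_coeff_dil hh r0 r1, norm_coeff_dil hg r0 r1, ← mul_sub, abs_mul,
      abs_of_pos (by positivity : 0 < r ^ n / r)] at this
    exact this
  have hc : Filter.Tendsto (fun r : ℝ => r ^ n / r * X) (nhdsWithin 1 (Iio 1))
      (nhds ((1 : ℝ) ^ n / 1 * X)) := by
    apply Filter.Tendsto.mono_left _ nhdsWithin_le_nhds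
    exact ((continuousAt_id.pow n).div continuousAt_id one_ne_zero).mul continuousAt_const
  have := le_of_tendsto hc (by
    filter_upwards [Ioo_mem_nhdsLT (zero_lt_one' ℝ)] with r hr using key r hr.1 hr.2)
  simpa using this

open Pool.Agent.Helper809 in
/-- The difference bound fails for some quasiconformal univalent harmonic map. -/
theorem not_qc
    (H : ∀ k : ℝ, 0 ≤ k → k < 1 → ∀ h g : ℂ → ℂ,
      DifferentiableOn ℂ h (ball (0 : ℂ) 1) → DifferentiableOn ℂ g (ball (0 : ℂ) 1) →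
      h 0 = 0 → deriv h 0 = 1 → g 0 = 0 → deriv g 0 = 0 →
      InjOn (fun z => h z + starRingEnd ℂ (g z)) (ball (0 : ℂ) 1) →
      (∀ z ∈ ball (0 : ℂ) 1, ‖deriv g z‖ ≤ k * ‖deriv h z‖) →
      ∀ n : ℕ, 2 ≤ n →
        |‖iteratedDeriv n h 0 / (n.factorial : ℂ)‖ - ‖iteratedDeriv n g 0 / (n.factorial : ℂ)‖|
          ≤ (n : ℝ)) : False := by
  apply Spiral.contradiction_of_bound
  intro n hn
  exact bound_of_qc H Spiral.h_diff Spiral.g_diff Spiral.h_zero Spiral.deriv_h_zero Spiral.g_zero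
    Spiral.deriv_g_zero
    (fun z hz w hw hzw => Spiral.f_inj (Spiral.mem_ball_iff.mp hz) (Spiral.mem_ball_iff.mp hw) hzw)
    (fun z hz => Spiral.dilatation (Spiral.mem_ball_iff.mp hz)) n hn

end Pool.Agent.H194Z.QcDilate
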